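import Mathlib

/-!
PROJECT H904-RT (MP_cb9c95_lc): RT^2_2 is not computably reducible to RT^2_2(120).
Definitions and tasks.  Everything here is pure combinatorics (no computability).
-/

set_option autoImplicit false

namespace Pool.Agent.H904R6.CR

/-- subsets of `ℕ` -/
abbrev S := ℕ → Bool
/-- colourings of pairs (only `x < y` matters) -/
abbrev Col := ℕ → ℕ → Bool
/-- bounded auxiliary functions (a compact space) -/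
abbrev Cs := (x : ℕ) → Fin (2 * x + 10)

/-- oracles: colourings `f`, `g`, a reservoir `X`, an auxiliary function `C` -/
structure Om where
  f : Col
  g : Col
  X : S
  C : Cs

def agS (k : ℕ) (a b : S) : Prop := ∀ n < k, a n = b n
def agC (k : ℕ) (f g : Col) : Prop := ∀ x < k, ∀ y < k, f x y = g x y
def agA (k : ℕ) (a b : Cs) : Prop := ∀ n < k, a n = b n
/-- agreement of two oracles up to level `k` -/
def ag (k : ℕ) (Z W : Om) : Prop :=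
  agC k Z.f W.f ∧ agC k Z.g W.g ∧ agS k Z.X W.X ∧ agA k Z.C W.C

def Om.wC (Z : Om) (C : Cs) : Om := ⟨Z.f, Z.g, Z.X, C⟩

/-- a test (`bd`, `q`) and a class (`o`): `bd m k Z`: at stage `k` a bound for `m` is found;
`q m b k α Z`: at stage `k` the finite function `α` on `[m,b)` is enumerated;
`o k C Z`: at stage `k` the function `C` is excluded from the class. -/
structure Obj where
  bd : ℕ → ℕ → Om → Prop
  q : ℕ → ℕ → ℕ → S → Om → Prop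
  o : ℕ → Cs → Om → Prop

/-- stage `k` looks only at the oracles below `k`; enumerations are monotone -/
structure Obj.Good (T : Obj) : Prop where
  hbd : ∀ m k Z W, ag k Z W → T.bd m k Z → T.bd m k W
  hq : ∀ m b k α β Z W, ag k Z W → (∀ n, m ≤ n → n < b → α n = β n) → T.q m b k α Z → T.q m b k β W
  hqm : ∀ m b k l α Z, k ≤ l → T.q m b k α Z → T.q m b l α Z
  ho : ∀ k C D Z W, ag k Z W → agA k C D → T.o k C Z → T.o k D W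
  hom : ∀ k l C Z, k ≤ l → T.o k C Z → T.o l C Z

/-- `b` is the first bound for `m` -/
def fst (T : Obj) (m b : ℕ) (Z : Om) : Prop := T.bd m b Z ∧ ∀ j < b, ¬ T.bd m j Z

/-- `A` passes the test `T` at the oracle `Z` -/
def SHT (A : S) (T : Obj) (Z : Om) : Prop :=
  (∀ m, ∃ b, T.bd m b Z) → (∀ m b, fst T m b Z → ∃ α, ∀ k, ¬ T.q m b k α Z) →
    ∃ m b, fst T m b Z ∧ ∀ k, ¬ T.q m b k A Z

/-! ### operations -/

def opW (O T : Obj) : Obj where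
  bd m k Z := ∀ C, O.o k C Z ∨ ∃ j ≤ k, T.bd m j (Z.wC C)
  q m b k α Z := b ≤ k ∧ ∀ C, O.o k C Z ∨ ∃ j ≤ b, fst T m j (Z.wC C) ∧ T.q m j k α (Z.wC C)
  o := O.o

def op3a (m : ℕ) (O T : Obj) : Obj where
  bd := T.bd
  q := T.q
  o k C Z := O.o k C Z ∨ ∃ j ≤ k, T.bd m j (Z.wC C)

def op3b (m b K : ℕ) (O T : Obj) : Obj where
  bd := T.bd
  q := T.q
  o k C Z := O.o k C Z ∨
    (b ≤ k ∧ K ≤ k ∧ ¬ (fst T m b (Z.wC C) ∧ ∀ α, T.q m b K α (Z.wC C)))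

def op3c (m b : ℕ) (a : Finset ℕ) (O T : Obj) : Obj where
  bd := T.bd
  q := T.q
  o k C Z := O.o k C Z ∨ (b ≤ k ∧ ¬ fst T m b (Z.wC C)) ∨
    T.q m b k (fun n => decide (n ∈ a)) (Z.wC C)

def zC : Cs := fun _ => 0

def ph1 (i : ℕ) (Z : Om) : Om := ⟨Z.f, Z.g, fun x => Z.X x && decide ((Z.C x : ℕ) = i), zC⟩
def ph2 (Z : Om) : Om := ⟨Z.f, Z.g, fun x => decide ((Z.C x : ℕ) = 1), zC⟩
def ph3 (n : ℕ) (E B : Finset ℕ) (Z : Om) : Om :=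
  ⟨Z.f, Z.g, fun z => Z.X z && decide (n ≤ z ∧ ∀ x ∈ E, x < n → Z.g x z = decide (x ∈ B)), zC⟩

def sub (φ : Om → Om) (T : Obj) : Obj where
  bd m k Z := T.bd m k (φ Z)
  q m b k α Z := T.q m b k α (φ Z)
  o k C Z := T.o k C Z

/-! ### the basic objects -/

/-- functionals: `Γ v k G f`: at stage `k`, `v` is enumerated with the oracles `G` and `f` -/
abbrev Fn := ℕ → ℕ → S → Col → Prop

structure GoodFn (Γ : Fn) : Prop where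
  dep : ∀ v k G H f g, agS k G H → agC k f g → Γ v k G f → Γ v k H g
  mono : ∀ v k l G f, k ≤ l → Γ v k G f → Γ v l G f

def ind (F : Finset ℕ) : S := fun n => decide (n ∈ F)

/-- clique: all pairs have colour 1 -/
def clq (g : Col) (E : Finset ℕ) : Prop := ∀ x ∈ E, ∀ y ∈ E, x < y → g x y = true

/-- `E` avoids the pattern 120 -/
def vld (g : Col) (E : Finset ℕ) : Prop :=
  ∀ x ∈ E, ∀ y ∈ E, ∀ z ∈ E, x < y → y < z → ¬ (g x y = false ∧ g x z = true ∧ g y z = true)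

def KK (Γ : Fn) (F : Finset ℕ) (Z : Om) (m M : ℕ) (E : Finset ℕ) (v : ℕ) : Prop :=
  E.Nonempty ∧ (∀ x ∈ E, m ≤ x ∧ x < M ∧ Z.X x = true) ∧ clq Z.g E ∧ m ≤ v ∧ v < M ∧
    Γ v M (ind (F ∪ E)) Z.f

def VV (Γ : Fn) (F : Finset ℕ) (Z : Om) (m M : ℕ) (E : Finset ℕ) (v : ℕ) : Prop :=
  (∀ x ∈ E, m ≤ x ∧ x < M ∧ Z.X x = true) ∧ vld Z.g E ∧ m ≤ v ∧ v < M ∧
    Γ v M (ind (F ∪ E)) Z.f

def Large (Γ : Fn) (F : Finset ℕ) (Z : Om) (m M : ℕ) : Prop :=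
  ∀ c : ℕ → ℕ, (∀ x, c x < 2 * m + 10) → ∃ i E v, KK Γ F Z m M E v ∧ ∀ x ∈ E, c x = i

def objA (Γ : Fn) (F : Finset ℕ) (m : ℕ) : Obj where
  bd _ _ _ := False
  q _ _ _ _ _ := False
  o k C Z := (∃ x < k, m ≤ x ∧ 2 * m + 10 ≤ (C x : ℕ)) ∨
    ∃ M ≤ k, ∃ E v, ∃ i, KK Γ F Z m M E v ∧ ∀ x ∈ E, (C x : ℕ) = i

def objB (Γ1 : Fn) (F1 : Finset ℕ) (Γ : Fn) (F : Finset ℕ) (m : ℕ) : Obj where
  bd _ _ _ := False
  q _ _ _ _ _ := False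
  o k Y Z := (∃ y < k, (Y y : ℕ) = 1 ∧ Z.X y = false) ∨
    (∃ M ≤ k, ∃ E v, VV Γ F Z m M E v ∧ ∀ x ∈ E, (Y x : ℕ) = 1) ∨
    ∃ (e : ℕ → ℕ) (t : ℕ), e 0 = m ∧
      (∀ j ≤ t, IsLeast {M | Large Γ1 F1 Z (e j) M} (e (j + 1))) ∧ e (t + 1) ≤ k ∧
      (t = 0 ∨ (Y (t - 1) : ℕ) = 1) ∧ ∀ y, e t ≤ y → y < e (t + 1) → (Y y : ℕ) ≠ 1

/-- the assignment `α` of the values contradicts the possible limit behaviour `D` -/
def Ctr (Γ1 : Fn) (F1 : Finset ℕ) (Γ : Fn) (F : Finset ℕ) (i1 i : Bool) (k m : ℕ) (α D : S)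
    (Z : Om) : Prop :=
  (∃ E v, ∃ M ≤ k, KK Γ1 F1 Z m M E v ∧ (∀ x ∈ E, D x = true) ∧ α v = i1) ∨
  (∃ E v, ∃ M ≤ k, VV Γ F Z m M E v ∧
    (∀ x ∈ E, ∀ y ∈ E, D x = true → D y = true → x = y) ∧ α v = i)

def objC (Γ1 : Fn) (F1 : Finset ℕ) (Γ : Fn) (F : Finset ℕ) (i1 i : Bool) : Obj where
  bd m k Z := ∃ α, ∀ D, Ctr Γ1 F1 Γ F i1 i k m α D Z
  q m b k α Z := b ≤ k ∧ ∃ D, ¬ Ctr Γ1 F1 Γ F i1 i b m α D Z
  o _ _ _ := False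

/-- closed families of objects -/
structure Fam (Bs : Set Fn) (Fm : Set Obj) : Prop where
  cnt : Fm.Countable
  good : ∀ T ∈ Fm, T.Good
  cW : ∀ O ∈ Fm, ∀ T ∈ Fm, opW O T ∈ Fm
  c3a : ∀ m, ∀ O ∈ Fm, ∀ T ∈ Fm, op3a m O T ∈ Fm
  c3b : ∀ m b K, ∀ O ∈ Fm, ∀ T ∈ Fm, op3b m b K O T ∈ Fm
  c3c : ∀ m b a, ∀ O ∈ Fm, ∀ T ∈ Fm, op3c m b a O T ∈ Fm
  p1 : ∀ i, ∀ T ∈ Fm, sub (ph1 i) T ∈ Fm
  p2 : ∀ T ∈ Fm, sub ph2 T ∈ Fm
  p3 : ∀ n E B, ∀ T ∈ Fm, sub (ph3 n E B) T ∈ Fm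
  bA : ∀ Γ ∈ Bs, ∀ F m, objA Γ F m ∈ Fm
  bB : ∀ Γ1 ∈ Bs, ∀ F1, ∀ Γ ∈ Bs, ∀ F m, objB Γ1 F1 Γ F m ∈ Fm
  bC : ∀ Γ1 ∈ Bs, ∀ F1, ∀ Γ ∈ Bs, ∀ F i1 i, objC Γ1 F1 Γ F i1 i ∈ Fm

/-! ### TASKS -/

/-- the operations and the basic objects are good -/
def TaskGood : Prop :=
  (∀ O T : Obj, O.Good → T.Good → (opW O T).Good) ∧
  (∀ (O T : Obj) m, O.Good → T.Good → (op3a m O T).Good) ∧
  (∀ (O T : Obj) m b K, O.Good → T.Good → (op3b m b K O T).Good) ∧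
  (∀ (O T : Obj) m b a, O.Good → T.Good → (op3c m b a O T).Good) ∧
  (∀ (T : Obj) i, T.Good → (sub (ph1 i) T).Good) ∧
  (∀ (T : Obj), T.Good → (sub ph2 T).Good) ∧
  (∀ (T : Obj) n E B, T.Good → (sub (ph3 n E B) T).Good)

def TaskGoodA : Prop := ∀ (Γ : Fn) (F : Finset ℕ) (m : ℕ), GoodFn Γ → (objA Γ F m).Good

def TaskGoodB : Prop := ∀ (Γ1 : Fn) (F1 : Finset ℕ) (Γ : Fn) (F : Finset ℕ) (m : ℕ),
  GoodFn Γ1 → GoodFn Γ → (objB Γ1 F1 Γ F m).Good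

def TaskGoodC : Prop := ∀ (Γ1 : Fn) (F1 : Finset ℕ) (Γ : Fn) (F : Finset ℕ) (i1 i : Bool),
  GoodFn Γ1 → GoodFn Γ → (objC Γ1 F1 Γ F i1 i).Good

/-- a countable closed family exists -/
def TaskFam : Prop := TaskGood → TaskGoodA → TaskGoodB → TaskGoodC →
  ∀ Bs : Set Fn, Bs.Countable → (∀ Γ ∈ Bs, GoodFn Γ) → ∃ Fm : Set Obj, Fam Bs Fm

/-- existence of the colouring `f` with limit `A` -/
def TaskF : Prop := ∀ (ι : Type) [Countable ι] (R : ι → Col → Col → Prop) (T : ι → Obj),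
  (∀ i, (T i).Good) →
  (∀ i f g, R i f g → ∀ j, ∃ k, ∀ f' g', agC k f f' → R i f' g' → agC j g g') →
  ∃ (f : Col) (A : S), (∀ x, ∃ n, ∀ y, n ≤ y → f x y = A x) ∧
    ∀ i g, R i f g → SHT A (T i) ⟨f, g, fun _ => true, zC⟩

/-- basis theorem for closed classes -/
def TaskW : Prop := ∀ (Bs : Set Fn) (Fm : Set Obj), Fam Bs Fm → ∀ (A : S) (Z : Om) (O : Obj),
  O ∈ Fm → (∃ C, ∀ k, ¬ O.o k C Z) → (∀ T ∈ Fm, SHT A T Z) →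
  ∃ C, (∀ k, ¬ O.o k C Z) ∧ ∀ T ∈ Fm, SHT A T (Z.wC C)

/-- allowed reservoirs -/
def Al (Fm : Set Obj) (A : S) (f g : Col) (X : S) : Prop :=
  {x | X x = true}.Infinite ∧ ∀ T ∈ Fm, SHT A T ⟨f, g, X, zC⟩

def Sub (X Y : S) : Prop := ∀ x, X x = true → Y x = true

/-- existence of large intervals in allowed reservoirs -/
def TaskA : Prop := TaskW → ∀ (Bs : Set Fn) (Fm : Set Obj), Fam Bs Fm → ∀ (A : S) (f g : Col) (X0 : S)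
  (Γ1 : Fn) (F1 : Finset ℕ), Γ1 ∈ Bs → GoodFn Γ1 →
  (∀ X, Al Fm A f g X → Sub X X0 → ∀ m, ∃ M E v, KK Γ1 F1 ⟨f, g, X, zC⟩ m M E v) →
  ∀ X, Al Fm A f g X → Sub X X0 → ∀ m, ∃ M, Large Γ1 F1 ⟨f, g, X, zC⟩ m M

/-- the combinatorial core. `e` : consecutive intervals `J_t = [e t, e (t+1))`; the tree: the root
is `J_0`, the child of the element `y` is `J_(y+1)`. `K t E`: `E` is a special subset of `J_t`.
`V E v`: `E` has the value `v`. -/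
def TaskL : Prop := ∀ (e : ℕ → ℕ) (X : S) (K : ℕ → Finset ℕ → Prop) (V : Finset ℕ → ℕ → Prop),
  StrictMono e →
  (∀ t E, K t E → E.Nonempty ∧ ∀ x ∈ E, e t ≤ x ∧ x < e (t + 1) ∧ X x = true) →
  (∀ t (c : ℕ → ℕ), (∀ x, c x < 2 * e t + 10) → ∃ i E, K t E ∧ ∀ x ∈ E, c x = i) →
  (∀ E v, V E v → e 0 ≤ v) →
  -- every infinite path has a subset with a value
  (∀ y : ℕ → ℕ, (e 0 ≤ y 0 ∧ y 0 < e 1) → (∀ n, e (y n + 1) ≤ y (n + 1) ∧ y (n + 1) < e (y n + 2)) →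
    (∀ n, X (y n) = true) → ∃ E v, V E v ∧ ∀ x ∈ E, ∃ n, x = y n) →
  ∃ a : ℕ → Bool, ∀ D : S,
    (∃ s E, K s E ∧ (∀ x ∈ E, D x = true) ∧ a s = false) ∨
    (∃ E v s, V E v ∧ (∀ x ∈ E, ∀ y ∈ E, D x = true → D y = true → x = y) ∧
      e s ≤ v ∧ v < e (s + 1) ∧ a s = true)

/-- the two kinds of trouble are contradictory -/
def TaskM : Prop := TaskW → TaskA → TaskL → ∀ (Bs : Set Fn) (Fm : Set Obj), Fam Bs Fm →
  ∀ (A : S) (f g : Col) (X0 X : S) (Γ1 Γ : Fn) (F1 F : Finset ℕ) (i1 i : Bool),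
  Γ1 ∈ Bs → GoodFn Γ1 → Γ ∈ Bs → GoodFn Γ → Al Fm A f g X → Sub X X0 →
  -- N0
  (∀ m M E v, KK Γ1 F1 ⟨f, g, X0, zC⟩ m M E v →
    {z | X0 z = true ∧ ∀ x ∈ E, g x z = true}.Infinite → A v ≠ i1) →
  -- N0'
  (∀ X', Al Fm A f g X' → Sub X' X0 → ∀ m, ∃ M E v, KK Γ1 F1 ⟨f, g, X', zC⟩ m M E v) →
  -- N2
  (∀ m M E v (b : S), VV Γ F ⟨f, g, X, zC⟩ m M E v →
    {z | X z = true ∧ ∀ x ∈ E, g x z = b x}.Infinite →
    (∀ x ∈ E, ∀ y ∈ E, x < y → b x = true → b y = true → g x y = true) → A v ≠ i) →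
  -- N2'
  (∀ X', Al Fm A f g X' → Sub X' X → ∀ m, ∃ M E v, VV Γ F ⟨f, g, X', zC⟩ m M E v) →
  False

/-- the construction of the solution `G` -/
def TaskG : Prop := TaskM → TaskW → TaskA → TaskL → ∀ (Bs : Set Fn) (Fm : Set Obj), Bs.Countable →
  (∀ Γ ∈ Bs, GoodFn Γ) → (fun v k G _ => v < k ∧ G v = true : Fn) ∈ Bs → Fam Bs Fm →
  ∀ (A : S) (f g : Col), Al Fm A f g (fun _ => true) →
  ∃ G : S, {x | G x = true}.Infinite ∧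
    (∀ x y z, x < y → y < z → G x = true → G y = true → G z = true →
      ¬ (g x y = false ∧ g x z = true ∧ g y z = true)) ∧
    ∀ Γ ∈ Bs, ∀ i : Bool, (∃ v k, Γ v k G f ∧ A v = i) ∨ ∃ m, ∀ v k, Γ v k G f → v < m

end Pool.Agent.H904R6.CR
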