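import Pool.Agent.H904R6.CR.Stmts

set_option autoImplicit false

/-! # Task TaskF of project H904-RT: a colouring `f` with limit `A` passing countably many tests -/

namespace Pool.Agent.H904R6.CR.F

open Pool.Agent.H904R6.CR

/-- a finite condition -/
structure St where
  n : ℕ
  F : Col
  a : S

/-- `f` is compatible with the condition `s` -/
def Comp (s : St) (f : Col) : Prop :=
  agC s.n s.F f ∧ ∀ x < s.n, ∀ y, s.n ≤ y → f x y = s.a x

/-- `s'` extends `s` -/
def Ext (s s' : St) : Prop := s.n < s'.n ∧ Comp s s'.F ∧ ∀ x < s.n, s'.a x = s.a x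

lemma Ext.comp {s s' : St} (h : Ext s s') {f : Col} (hf : Comp s' f) : Comp s f := by
  obtain ⟨h1, h2, h3⟩ := h
  refine ⟨fun x hx y hy => ?_, fun x hx y hy => ?_⟩
  · rw [h2.1 x hx y hy]
    exact hf.1 x (hx.trans h1) y (hy.trans h1)
  · rcases Nat.lt_or_ge y s'.n with hy' | hy'
    · rw [← hf.1 x (hx.trans h1) y hy']
      exact h2.2 x hx y hy
    · rw [hf.2 x (hx.trans h1) y hy', h3 x hx]

lemma Ext.trans {s s' s'' : St} (h : Ext s s') (h' : Ext s' s'') : Ext s s'' :=
  ⟨h.1.trans h'.1, h.comp h'.2.1, fun x hx => by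
    rw [h'.2.2 x (hx.trans h.1), h.2.2 x hx]⟩

lemma agC_mono {j k : ℕ} (h : j ≤ k) {f g : Col} (hk : agC k f g) : agC j f g :=
  fun x hx y hy => hk x (lt_of_lt_of_le hx h) y (lt_of_lt_of_le hy h)

lemma agC_symm {k : ℕ} {f g : Col} (hk : agC k f g) : agC k g f :=
  fun x hx y hy => (hk x hx y hy).symm

/-- the oracle of a pair of colourings -/
def om (f g : Col) : Om := ⟨f, g, fun _ => true, zC⟩

lemma ag_om {k : ℕ} {f g f' g' : Col} (h : agC k f f') (h' : agC k g g') :
    ag k (om f g) (om f' g') :=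
  ⟨h, h', fun _ _ => rfl, fun _ _ => rfl⟩

lemma fst_of_ag {T : Obj} (hT : T.Good) {m b : ℕ} {f g f' g' : Col} (h : agC b f f')
    (h' : agC b g g') (hf : fst T m b (om f g)) : fst T m b (om f' g') := by
  refine ⟨hT.hbd m b _ _ (ag_om h h') hf.1, fun j hj hb => hf.2 j hj ?_⟩
  exact hT.hbd m j _ _ (ag_om (agC_symm (agC_mono hj.le h)) (agC_symm (agC_mono hj.le h'))) hb

lemma exists_fst {T : Obj} {m : ℕ} {Z : Om} (h : ∃ b, T.bd m b Z) : ∃ b, fst T m b Z := by
  classical
  exact ⟨Nat.find h, Nat.find_spec h, fun j hj => Nat.find_min h hj⟩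

/-- the enumerated restrictions to `[n,b)`, coded by subsets of `range b` -/
noncomputable def En (T : Obj) (n b K : ℕ) (Z : Om) : Finset (Finset ℕ) := by
  classical
  exact (Finset.range b).powerset.filter fun s => T.q n b K (fun x => decide (x ∈ s)) Z

lemma mem_En {T : Obj} {n b K : ℕ} {Z : Om} {s : Finset ℕ} :
    s ∈ En T n b K Z ↔ s ⊆ Finset.range b ∧ T.q n b K (fun x => decide (x ∈ s)) Z := by
  classical
  unfold En
  rw [Finset.mem_filter, Finset.mem_powerset]

/-- the code of a restriction -/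
def code (b : ℕ) (α : S) : Finset ℕ := (Finset.range b).filter fun x => α x = true

lemma q_code {T : Obj} (hT : T.Good) {n b K : ℕ} {Z : Om} (α : S) :
    T.q n b K (fun x => decide (x ∈ code b α)) Z ↔ T.q n b K α Z := by
  have hag : ag K Z Z := ⟨fun _ _ _ _ => rfl, fun _ _ _ _ => rfl, fun _ _ => rfl, fun _ _ => rfl⟩
  have h : ∀ x, n ≤ x → x < b → (fun x => decide (x ∈ code b α)) x = α x := by
    intro x _ hx
    simp [code, hx]
  exact ⟨fun hq => hT.hq n b K _ _ Z Z hag h hq,
    fun hq => hT.hq n b K _ _ Z Z hag (fun x h1 h2 => (h x h1 h2).symm) hq⟩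

lemma code_mem_En {T : Obj} (hT : T.Good) {n b K : ℕ} {Z : Om} (α : S) :
    code b α ∈ En T n b K Z ↔ T.q n b K α Z := by
  rw [mem_En, q_code hT]
  exact ⟨fun h => h.2, fun h => ⟨Finset.filter_subset _ _, h⟩⟩

lemma En_mono {T : Obj} (hT : T.Good) {n b K L : ℕ} (hKL : K ≤ L) {Z : Om} :
    En T n b K Z ⊆ En T n b L Z := fun s hs => by
  rw [mem_En] at hs ⊢
  exact ⟨hs.1, hT.hqm _ _ _ _ _ _ hKL hs.2⟩

lemma En_ag {T : Obj} (hT : T.Good) {n b K : ℕ} {Z W : Om} (h : ag K Z W) :
    En T n b K Z ⊆ En T n b K W := fun s hs => by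
  rw [mem_En] at hs ⊢
  exact ⟨hs.1, hT.hq _ _ _ _ _ _ _ h (fun _ _ _ => rfl) hs.2⟩

/-- one step of the construction -/
lemma step (R : Col → Col → Prop) (T : Obj) (hT : T.Good)
    (hR : ∀ f g, R f g → ∀ j, ∃ k, ∀ f' g', agC k f f' → R f' g' → agC j g g') (s : St) :
    ∃ s', Ext s s' ∧ ∀ (f : Col) (A : S), Comp s' f → (∀ x < s'.n, A x = s'.a x) →
      ∀ g, R f g → SHT A T (om f g) := by
  classical
  by_cases hex : ∃ f' g' b, Comp s f' ∧ R f' g' ∧ fst T s.n b (om f' g')
  · obtain ⟨f0, g0, b, hc0, hR0, hb0⟩ := hex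
    obtain ⟨k0, hk0⟩ := hR f0 g0 hR0 b
    -- the admissible triples
    let P : Col × Col × ℕ → Prop := fun p =>
      Comp s p.1 ∧ agC (max k0 b) f0 p.1 ∧ R p.1 p.2.1
    have hbdd : ∀ p : Col × Col × ℕ, (En T s.n b p.2.2 (om p.1 p.2.1)).card ≤ 2 ^ b := by
      intro p
      have h1 : En T s.n b p.2.2 (om p.1 p.2.1) ⊆ (Finset.range b).powerset := by
        intro x hx
        rw [Finset.mem_powerset]
        exact (mem_En.1 hx).1
      have h2 := Finset.card_le_card h1
      rwa [Finset.card_powerset, Finset.card_range] at h2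
    have hne : ∃ c, ∃ p, P p ∧ (En T s.n b p.2.2 (om p.1 p.2.1)).card = c :=
      ⟨_, (f0, g0, 0), ⟨hc0, fun _ _ _ _ => rfl, hR0⟩, rfl⟩
    obtain ⟨c, ⟨p, hP, hpc⟩, hmax⟩ : ∃ c, (∃ p, P p ∧ (En T s.n b p.2.2 (om p.1 p.2.1)).card = c) ∧
        ∀ c', (∃ p, P p ∧ (En T s.n b p.2.2 (om p.1 p.2.1)).card = c') → c' ≤ c := by
      let Q : ℕ → Prop := fun c => ∃ p, P p ∧ (En T s.n b p.2.2 (om p.1 p.2.1)).card = c
      obtain ⟨c0, hc0⟩ := hne
      refine ⟨Nat.findGreatest Q (2 ^ b), Nat.findGreatest_spec (P := Q) (m := c0) ?_ hc0, ?_⟩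
      · obtain ⟨p, _, rfl⟩ := hc0
        exact hbdd p
      · rintro c' ⟨p, hp, rfl⟩
        exact Nat.le_findGreatest (hbdd p) ⟨p, hp, rfl⟩
    obtain ⟨f1, g1, K1⟩ := p
    obtain ⟨hc1, hag1, hR1⟩ := hP
    simp only at hc1 hag1 hR1 hpc
    obtain ⟨k1, hk1⟩ := hR f1 g1 hR1 K1
    -- the new value
    obtain ⟨α, hα⟩ : ∃ α : S, (∃ β : S, ¬ T.q s.n b K1 β (om f1 g1)) →
        ¬ T.q s.n b K1 α (om f1 g1) := by
      by_cases h : ∃ β : S, ¬ T.q s.n b K1 β (om f1 g1)
      · obtain ⟨β, hβ⟩ := h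
        exact ⟨β, fun _ => hβ⟩
      · exact ⟨fun _ => true, fun h' => absurd h' h⟩
    let N : ℕ := s.n + 1 + k0 + b + K1 + k1
    refine ⟨⟨N, f1, fun x => if x < s.n then s.a x else α x⟩, ⟨by simp only [N]; omega, hc1, ?_⟩, ?_⟩
    · intro x hx
      simp only [if_pos hx]
    intro f A hf hA g hRfg
    simp only at hA
    have hextc : Comp s f := by
      refine Ext.comp (s' := ⟨N, f1, fun x => if x < s.n then s.a x else α x⟩) ⟨?_, hc1, ?_⟩ hf
      · show s.n < N
        simp only [N]; omega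
      · intro x hx
        simp only [if_pos hx]
    have hf1 : agC N f1 f := hf.1
    have hf0 : agC (max k0 b) f0 f := by
      intro x hx y hy
      rw [hag1 x hx y hy]
      exact hf1 x (by simp only [N]; omega) y (by simp only [N]; omega)
    have hg0 : agC b g0 g := hk0 f g (agC_mono (le_max_left _ _) hf0) hRfg
    have hfst : fst T s.n b (om f g) := fst_of_ag hT (agC_mono (le_max_right _ _) hf0) hg0 hb0
    have hg1 : agC K1 g1 g := hk1 f g (agC_mono (by simp only [N]; omega) hf1) hRfg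
    have hZ : ag K1 (om f1 g1) (om f g) := ag_om (agC_mono (by simp only [N]; omega) hf1) hg1
    -- the enumerated sets do not grow any more
    have hEn : ∀ K, En T s.n b K (om f g) ⊆ En T s.n b K1 (om f1 g1) := by
      intro K
      have h1 : En T s.n b K1 (om f1 g1) ⊆ En T s.n b (max K K1) (om f g) :=
        (En_ag hT hZ).trans (En_mono hT (le_max_right _ _))
      have h2 : (En T s.n b (max K K1) (om f g)).card ≤ (En T s.n b K1 (om f1 g1)).card := by
        rw [hpc]
        exact hmax _ ⟨(f, g, max K K1), ⟨hextc, hf0, hRfg⟩, rfl⟩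
      have h3 := Finset.eq_of_subset_of_card_le h1 h2
      rw [h3]
      exact En_mono hT (le_max_left _ _)
    intro _ hsec
    refine ⟨s.n, b, hfst, fun k hk => ?_⟩
    by_cases hall : ∃ β : S, ¬ T.q s.n b K1 β (om f1 g1)
    · have h1 : T.q s.n b k α (om f g) := by
        have hag : ag k (om f g) (om f g) :=
          ⟨fun _ _ _ _ => rfl, fun _ _ _ _ => rfl, fun _ _ => rfl, fun _ _ => rfl⟩
        refine hT.hq s.n b k A α _ _ hag (fun x h1 h2 => ?_) hk
        rw [hA x (by simp only [N]; omega), if_neg (by omega)]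
      have h2 := hEn k ((code_mem_En hT α).2 h1)
      exact hα hall ((code_mem_En hT α).1 h2)
    · obtain ⟨β, hβ⟩ := hsec s.n b hfst
      apply hall
      refine ⟨β, fun h => hβ K1 ?_⟩
      have h1 := En_ag hT hZ ((code_mem_En hT β).2 h)
      exact (code_mem_En hT β).1 h1
  · -- nothing to do
    refine ⟨⟨s.n + 1, fun x y => if x < s.n ∧ s.n ≤ y then s.a x else s.F x y, s.a⟩,
      ⟨Nat.lt_succ_self _, ⟨fun x hx y hy => ?_, fun x hx y hy => ?_⟩, fun x _ => rfl⟩, ?_⟩
    · show s.F x y = (if x < s.n ∧ s.n ≤ y then s.a x else s.F x y)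
      rw [if_neg (by omega)]
    · simp only [if_pos (And.intro hx hy)]
    · intro f A hf hA g hRfg hfirst
      exfalso
      apply hex
      have hextc : Comp s f := by
        refine Ext.comp (s' := ⟨s.n + 1, fun x y => if x < s.n ∧ s.n ≤ y then s.a x else s.F x y,
          s.a⟩) ⟨Nat.lt_succ_self _, ⟨fun x hx y hy => ?_, fun x hx y hy => ?_⟩,
          fun x _ => rfl⟩ hf
        · show s.F x y = (if x < s.n ∧ s.n ≤ y then s.a x else s.F x y)
          rw [if_neg (by omega)]
        · simp only [if_pos (And.intro hx hy)]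
      obtain ⟨b, hb⟩ := exists_fst (hfirst s.n)
      exact ⟨f, g, b, hextc, hRfg, hb⟩

theorem taskF : TaskF := by
  classical
  intro ι _ R T hT hR
  have : Encodable ι := Encodable.ofCountable ι
  have hst : ∀ (t : ℕ) (s : St), ∃ s', Ext s s' ∧ ∀ i, Encodable.decode (α := ι) t = some i →
      ∀ (f : Col) (A : S), Comp s' f → (∀ x < s'.n, A x = s'.a x) →
      ∀ g, R i f g → SHT A (T i) (om f g) := by
    intro t s
    rcases hd : Encodable.decode (α := ι) t with _ | i
    · obtain ⟨s', h1, _⟩ := step (fun _ _ => False) ⟨fun _ _ _ => False, fun _ _ _ _ _ => False,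
        fun _ _ _ => False⟩ ⟨fun _ _ _ _ _ h => h, fun _ _ _ _ _ _ _ _ _ h => h,
        fun _ _ _ _ _ _ _ h => h, fun _ _ _ _ _ _ _ h => h, fun _ _ _ _ _ h => h⟩
        (fun _ _ h => h.elim) s
      exact ⟨s', h1, fun i hi => by simp at hi⟩
    · obtain ⟨s', h1, h2⟩ := step (R i) (T i) (hT i) (hR i) s
      refine ⟨s', h1, fun i' hi' => ?_⟩
      obtain rfl : i = i' := Option.some.inj hi'
      exact h2
  choose nx hnx1 hnx2 using hst
  let sq : ℕ → St := fun t => Nat.rec ⟨0, fun _ _ => false, fun _ => false⟩ (fun t s => nx t s) t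
  have hsq : ∀ t, sq (t + 1) = nx t (sq t) := fun _ => rfl
  have hE : ∀ t, Ext (sq t) (sq (t + 1)) := fun t => hnx1 t (sq t)
  have hE' : ∀ s t, s < t → Ext (sq s) (sq t) := by
    intro s t hst
    induction t with
    | zero => omega
    | succ t ih =>
      rcases Nat.lt_or_ge s t with h | h
      · exact (ih h).trans (hE t)
      · obtain rfl : s = t := by omega
        exact hE s
  have hn : ∀ t, t ≤ (sq t).n := by
    intro t
    induction t with
    | zero => exact Nat.zero_le _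
    | succ t ih => exact Nat.succ_le_of_lt (lt_of_le_of_lt ih (hE t).1)
  let f : Col := fun x y => (sq (max x y + 1)).F x y
  let A : S := fun x => (sq (x + 1)).a x
  have hA : ∀ t, ∀ x < (sq t).n, A x = (sq t).a x := by
    intro t x hx
    show (sq (x + 1)).a x = (sq t).a x
    rcases lt_trichotomy (x + 1) t with h | h | h
    · exact ((hE' _ _ h).2.2 x (lt_of_lt_of_le (Nat.lt_succ_self x) (hn _))).symm
    · rw [h]
    · exact (hE' _ _ h).2.2 x hx
  have hf : ∀ t, Comp (sq t) f := by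
    intro t
    refine ⟨fun x hx y hy => ?_, fun x hx y hy => ?_⟩
    · show (sq t).F x y = (sq (max x y + 1)).F x y
      rcases lt_trichotomy (max x y + 1) t with h | h | h
      · have h1 := hn (max x y + 1)
        exact ((hE' _ _ h).2.1.1 x (by omega) y (by omega)).symm
      · rw [h]
      · exact (hE' _ _ h).2.1.1 x hx y hy
    · show (sq (max x y + 1)).F x y = (sq t).a x
      have h1 := hn t
      exact (hE' t (max x y + 1) (by omega)).2.1.2 x hx y hy
  refine ⟨f, A, fun x => ⟨(sq (x + 1)).n, fun y hy => ?_⟩, fun i g hRi => ?_⟩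
  · have h1 := hn (x + 1)
    exact (hf (x + 1)).2 x (by omega) y hy
  · exact hnx2 (Encodable.encode i) (sq (Encodable.encode i)) i (Encodable.encodek i) f A
      (hf (Encodable.encode i + 1)) (hA (Encodable.encode i + 1)) g hRi

end Pool.Agent.H904R6.CR.F
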