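import Mathlib
import Pool.Agent.H904R6.CR.Stmts

set_option autoImplicit false

/-!
Task `TaskFam` of project H904-RT (helper811): a countable closed family of objects exists.
-/

namespace Pool.Agent.H904R6.CR.Fam

open Pool.Agent.H904R6.CR

/-- terms over the basic objects -/
inductive Tm (B : Type) : Type
  | W : Tm B → Tm B → Tm B
  | a3 : ℕ → Tm B → Tm B → Tm B
  | b3 : ℕ → ℕ → ℕ → Tm B → Tm B → Tm B
  | c3 : ℕ → ℕ → Finset ℕ → Tm B → Tm B → Tm B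
  | p1 : ℕ → Tm B → Tm B
  | p2 : Tm B → Tm B
  | p3 : ℕ → Finset ℕ → Finset ℕ → Tm B → Tm B
  | bA : B → Finset ℕ → ℕ → Tm B
  | bB : B → Finset ℕ → B → Finset ℕ → ℕ → Tm B
  | bC : B → Finset ℕ → B → Finset ℕ → Bool → Bool → Tm B
  deriving Countable

/-- the object of a term -/
def ev (Bs : Set Fn) : Tm Bs → Obj
  | .W x y => opW (ev Bs x) (ev Bs y)
  | .a3 m x y => op3a m (ev Bs x) (ev Bs y)
  | .b3 m b K x y => op3b m b K (ev Bs x) (ev Bs y)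
  | .c3 m b a x y => op3c m b a (ev Bs x) (ev Bs y)
  | .p1 i x => sub (ph1 i) (ev Bs x)
  | .p2 x => sub ph2 (ev Bs x)
  | .p3 n E B x => sub (ph3 n E B) (ev Bs x)
  | .bA Γ F m => objA Γ.1 F m
  | .bB Γ1 F1 Γ F m => objB Γ1.1 F1 Γ.1 F m
  | .bC Γ1 F1 Γ F i1 i => objC Γ1.1 F1 Γ.1 F i1 i

theorem t : TaskFam := by
  intro hG hA hB hC Bs hBs hgood
  obtain ⟨h1, h2, h3, h4, h5, h6, h7⟩ := hG
  have : Countable Bs := hBs.to_subtype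
  refine ⟨Set.range (ev Bs), ?_⟩
  constructor
  · exact Set.countable_range _
  · rintro _ ⟨x, rfl⟩
    induction x with
    | W x y ihx ihy => exact h1 _ _ ihx ihy
    | a3 m x y ihx ihy => exact h2 _ _ m ihx ihy
    | b3 m b K x y ihx ihy => exact h3 _ _ m b K ihx ihy
    | c3 m b a x y ihx ihy => exact h4 _ _ m b a ihx ihy
    | p1 i x ih => exact h5 _ i ih
    | p2 x ih => exact h6 _ ih
    | p3 n E B x ih => exact h7 _ n E B ih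
    | bA Γ F m => exact hA _ F m (hgood _ Γ.2)
    | bB Γ1 F1 Γ F m => exact hB _ F1 _ F m (hgood _ Γ1.2) (hgood _ Γ.2)
    | bC Γ1 F1 Γ F i1 i => exact hC _ F1 _ F i1 i (hgood _ Γ1.2) (hgood _ Γ.2)
  · rintro _ ⟨x, rfl⟩ _ ⟨y, rfl⟩
    exact ⟨.W x y, rfl⟩
  · rintro m _ ⟨x, rfl⟩ _ ⟨y, rfl⟩
    exact ⟨.a3 m x y, rfl⟩
  · rintro m b K _ ⟨x, rfl⟩ _ ⟨y, rfl⟩
    exact ⟨.b3 m b K x y, rfl⟩
  · rintro m b a _ ⟨x, rfl⟩ _ ⟨y, rfl⟩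
    exact ⟨.c3 m b a x y, rfl⟩
  · rintro i _ ⟨x, rfl⟩
    exact ⟨.p1 i x, rfl⟩
  · rintro _ ⟨x, rfl⟩
    exact ⟨.p2 x, rfl⟩
  · rintro n E B _ ⟨x, rfl⟩
    exact ⟨.p3 n E B x, rfl⟩
  · intro Γ hΓ F m
    exact ⟨.bA ⟨Γ, hΓ⟩ F m, rfl⟩
  · intro Γ1 hΓ1 F1 Γ hΓ F m
    exact ⟨.bB ⟨Γ1, hΓ1⟩ F1 ⟨Γ, hΓ⟩ F m, rfl⟩
  · intro Γ1 hΓ1 F1 Γ hΓ F i1 i
    exact ⟨.bC ⟨Γ1, hΓ1⟩ F1 ⟨Γ, hΓ⟩ F i1 i, rfl⟩

end Pool.Agent.H904R6.CR.Fam
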