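import Mathlib
import Pool.Agent.H904R6.CR.Stmts

set_option autoImplicit false

/-! Task G of project H904-RT (written by helper782): the construction of the solution. -/

namespace Pool.Agent.H904R6.CR.G

open Pool.Agent.H904R6.CR

/-- extension of conditions -/
def Ext (F : Finset ℕ) (n : ℕ) (X : S) (F' : Finset ℕ) (n' : ℕ) (X' : S) : Prop :=
  n ≤ n' ∧ Sub X' X ∧ F ⊆ F' ∧ ∀ x ∈ F', x ∉ F → X x = true

lemma Ext.refl (F : Finset ℕ) (n : ℕ) (X : S) : Ext F n X F n X :=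
  ⟨le_rfl, fun _ h => h, subset_rfl, fun _ h h' => absurd h h'⟩

lemma Ext.trans {F F' F'' : Finset ℕ} {n n' n'' : ℕ} {X X' X'' : S} (h : Ext F n X F' n' X')
    (h' : Ext F' n' X' F'' n'' X'') : Ext F n X F'' n'' X'' := by
  refine ⟨h.1.trans h'.1, fun x hx => h.2.1 x (h'.2.1 x hx), h.2.2.1.trans h'.2.2.1, fun x hx hxF => ?_⟩
  by_cases hx' : x ∈ F'
  · exact h.2.2.2 x hx' hxF
  · exact h.2.1 x (h'.2.2.2 x hx hx')

/-- the requirement is met -/
def Met (A : S) (f : Col) (P : Finset ℕ → Prop) (Γ : Fn) (i : Bool) (F : Finset ℕ) (n : ℕ)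
    (X : S) : Prop :=
  (∃ v, ∃ k ≤ n, Γ v k (ind F) f ∧ A v = i) ∨
  ∃ m, ∀ E : Finset ℕ, (∀ x ∈ E, X x = true) → P E → ∀ M, (∀ x ∈ E, x < M) →
    ∀ v, m ≤ v → ¬ Γ v M (ind (F ∪ E)) f

lemma iterate (A : S) (f : Col) (P : Finset ℕ → Prop) (hPsub : ∀ E E', E ⊆ E' → P E' → P E)
    (Bs : Set Fn) (hBc : Bs.Countable) (hBn : Bs.Nonempty) (hgood : ∀ Γ ∈ Bs, GoodFn Γ)
    (Q : Finset ℕ → ℕ → S → Prop)
    (Q1 : ∀ F n X, Q F n X → (∀ x ∈ F, x < n) ∧ (∀ x, X x = true → n ≤ x) ∧ P F)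
    (Q2 : ∀ F n X, Q F n X → ∃ F' n' X', Q F' n' X' ∧ Ext F n X F' n' X' ∧ F.card < F'.card)
    (Q3 : ∀ Γ ∈ Bs, ∀ (i : Bool) F n X, Q F n X → ∃ F' n' X', Q F' n' X' ∧ Ext F n X F' n' X' ∧
      Met A f P Γ i F' n' X')
    (Q0 : ∃ F n X, Q F n X) :
    ∃ G : S, {x | G x = true}.Infinite ∧ (∀ E : Finset ℕ, (∀ x ∈ E, G x = true) → P E) ∧
      ∀ Γ ∈ Bs, ∀ i : Bool, (∃ v k, Γ v k G f ∧ A v = i) ∨ ∃ m, ∀ v k, Γ v k G f → v < m := by
  classical
  have : Countable Bs := hBc.to_subtype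
  have : Nonempty Bs := hBn.to_subtype
  obtain ⟨r, hr⟩ := exists_surjective_nat (Bs × Bool)
  have step : ∀ (s : ℕ) (c : {p : Finset ℕ × ℕ × S // Q p.1 p.2.1 p.2.2}),
      ∃ c' : {p : Finset ℕ × ℕ × S // Q p.1 p.2.1 p.2.2},
        Ext c.1.1 c.1.2.1 c.1.2.2 c'.1.1 c'.1.2.1 c'.1.2.2 ∧ c.1.1.card < c'.1.1.card ∧
        Met A f P (r s).1.1 (r s).2 c'.1.1 c'.1.2.1 c'.1.2.2 := by
    intro s c
    obtain ⟨F', n', X', hQ', hE', hc'⟩ := Q2 _ _ _ c.2
    obtain ⟨F'', n'', X'', hQ'', hE'', hM''⟩ := Q3 (r s).1.1 (r s).1.2 (r s).2 _ _ _ hQ'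
    exact ⟨⟨(F'', n'', X''), hQ''⟩, hE'.trans hE'',
      lt_of_lt_of_le hc' (Finset.card_le_card hE''.2.2.1), hM''⟩
  choose nxt h1 h2 h3 using step
  obtain ⟨F0, n0, X0, hQ0⟩ := Q0
  let c : ℕ → {p : Finset ℕ × ℕ × S // Q p.1 p.2.1 p.2.2} := fun s =>
    Nat.rec ⟨(F0, n0, X0), hQ0⟩ (fun s c => nxt s c) s
  have hc : ∀ s, c (s + 1) = nxt s (c s) := fun s => rfl
  have hext : ∀ s t, s ≤ t → Ext (c s).1.1 (c s).1.2.1 (c s).1.2.2 (c t).1.1 (c t).1.2.1
      (c t).1.2.2 := by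
    intro s t hst
    induction t, hst using Nat.le_induction with
    | base => exact Ext.refl _ _ _
    | succ t _ ih =>
      rw [hc]
      exact ih.trans (h1 t (c t))
  have hcard : ∀ s, s ≤ (c s).1.1.card := by
    intro s
    induction s with
    | zero => exact Nat.zero_le _
    | succ s ih =>
      rw [hc]
      exact lt_of_le_of_lt ih (h2 s (c s))
  have hlt : ∀ s, ∀ x ∈ (c s).1.1, x < (c s).1.2.1 := fun s => (Q1 _ _ _ (c s).2).1
  have hn : ∀ s, s ≤ (c s).1.2.1 := by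
    intro s
    refine (hcard s).trans ?_
    have : (c s).1.1 ⊆ Finset.range (c s).1.2.1 := fun x hx => Finset.mem_range.2 (hlt s x hx)
    simpa using Finset.card_le_card this
  let G : S := fun x => decide (∃ s, x ∈ (c s).1.1)
  have hG : ∀ x, G x = true ↔ ∃ s, x ∈ (c s).1.1 := fun x => by simp [G]
  have hGX : ∀ s x, G x = true → x ∉ (c s).1.1 → (c s).1.2.2 x = true := by
    intro s x hx hxs
    obtain ⟨t, ht⟩ := (hG x).1 hx
    rcases le_total s t with hst | hst
    · exact (hext s t hst).2.2.2 x ht hxs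
    · exact absurd ((hext t s hst).2.2.1 ht) hxs
  have hGF : ∀ s x, x < (c s).1.2.1 → G x = true → x ∈ (c s).1.1 := by
    intro s x hx hxG
    by_contra hcon
    have h4 := (Q1 _ _ _ (c s).2).2.1 x (hGX s x hxG hcon)
    omega
  have hFG : ∀ s x, x ∈ (c s).1.1 → G x = true := fun s x hx => (hG x).2 ⟨s, hx⟩
  have hind : ∀ (F : Finset ℕ) (x : ℕ), ind F x = true ↔ x ∈ F := fun F x => by simp [ind]
  have hPG : ∀ E : Finset ℕ, (∀ x ∈ E, G x = true) → P E := by
    intro E hE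
    obtain ⟨k, hk⟩ : ∃ k, ∀ x ∈ E, x < k := ⟨E.sup id + 1, fun x hx =>
      Nat.lt_succ_of_le (Finset.le_sup (f := id) hx)⟩
    refine hPsub E (c k).1.1 (fun x hx => ?_) (Q1 _ _ _ (c k).2).2.2
    exact hGF k x (lt_of_lt_of_le (hk x hx) (hn k)) (hE x hx)
  refine ⟨G, ?_, hPG, ?_⟩
  · intro hfin
    have h5 : ∀ s, s ≤ hfin.toFinset.card := by
      intro s
      refine (hcard s).trans (Finset.card_le_card fun x hx => ?_)
      rw [Set.Finite.mem_toFinset]
      exact hFG s x hx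
    have := h5 (hfin.toFinset.card + 1)
    omega
  · intro Γ hΓ i
    obtain ⟨s, hs⟩ := hr (⟨Γ, hΓ⟩, i)
    have hmet := h3 s (c s)
    rw [hs, ← hc] at hmet
    dsimp only at hmet
    rcases hmet with ⟨v, k, hk, hv, hA⟩ | ⟨m, hm⟩
    · left
      refine ⟨v, k, (hgood Γ hΓ).dep v k _ G f f ?_ (fun _ _ _ _ => rfl) hv, hA⟩
      intro x hx
      rw [Bool.eq_iff_iff, hind]
      exact ⟨fun h => hFG (s + 1) x h, fun h => hGF (s + 1) x (lt_of_lt_of_le hx hk) h⟩
    · right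
      refine ⟨m, fun v k hv => ?_⟩
      by_contra hcon
      push Not at hcon
      let E : Finset ℕ := (Finset.range k).filter fun x => G x = true ∧ x ∉ (c (s + 1)).1.1
      refine hm E ?_ (hPG E ?_) k ?_ v hcon ?_
      · intro x hx
        obtain ⟨-, hx1, hx2⟩ := Finset.mem_filter.1 hx
        exact hGX (s + 1) x hx1 hx2
      · intro x hx
        exact (Finset.mem_filter.1 hx).2.1
      · intro x hx
        exact Finset.mem_range.1 (Finset.mem_filter.1 hx).1
      · refine (hgood Γ hΓ).dep v k G _ f f ?_ (fun _ _ _ _ => rfl) hv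
        intro x hx
        rw [Bool.eq_iff_iff, hind, Finset.mem_union]
        constructor
        · intro h
          by_cases hxF : x ∈ (c (s + 1)).1.1
          · exact Or.inl hxF
          · exact Or.inr (Finset.mem_filter.2 ⟨Finset.mem_range.2 hx, h, hxF⟩)
        · rintro (h | h)
          · exact hFG (s + 1) x h
          · exact (Finset.mem_filter.1 h).2.1

/-- restricting reservoirs -/
lemma al_ph3 {Bs : Set Fn} {Fm : Set Obj} (hF : Fam Bs Fm) {A : S} {f g : Col} {X : S}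
    (h : Al Fm A f g X) (n : ℕ) (E : Finset ℕ) (b : S) (hE : ∀ x ∈ E, x < n)
    (hinf : {z | X z = true ∧ ∀ x ∈ E, g x z = b x}.Infinite) :
    ∃ X', Al Fm A f g X' ∧ ∀ z, X' z = true ↔ (X z = true ∧ n ≤ z ∧ ∀ x ∈ E, g x z = b x) := by
  classical
  set B : Finset ℕ := E.filter fun x => b x = true with hB
  have hX' : ∀ z, (ph3 n E B ⟨f, g, X, zC⟩).X z = true ↔
      (X z = true ∧ n ≤ z ∧ ∀ x ∈ E, g x z = b x) := by
    intro z
    show (X z && decide (n ≤ z ∧ ∀ x ∈ E, x < n → g x z = decide (x ∈ B))) = true ↔ _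
    rw [Bool.and_eq_true, decide_eq_true_iff]
    have e : ∀ x ∈ E, decide (x ∈ B) = b x := by
      intro x hx
      rw [Bool.eq_iff_iff, decide_eq_true_iff, hB, Finset.mem_filter]
      exact ⟨fun h => h.2, fun h => ⟨hx, h⟩⟩
    constructor
    · rintro ⟨h1, h2, h3⟩
      exact ⟨h1, h2, fun x hx => by rw [h3 x hx (hE x hx), e x hx]⟩
    · rintro ⟨h1, h2, h3⟩
      exact ⟨h1, h2, fun x hx _ => by rw [h3 x hx, e x hx]⟩
  refine ⟨(ph3 n E B ⟨f, g, X, zC⟩).X, ⟨?_, fun T hT => ?_⟩, hX'⟩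
  · refine (hinf.sdiff (Set.finite_Iio n)).mono ?_
    rintro z ⟨⟨h1, h2⟩, h3⟩
    have h3' : n ≤ z := by simpa using h3
    exact (hX' z).2 ⟨h1, h3', h2⟩
  · exact h.2 _ (hF.p3 n E B T hT)

lemma al_res {Bs : Set Fn} {Fm : Set Obj} (hF : Fam Bs Fm) {A : S} {f g : Col} {X : S}
    (h : Al Fm A f g X) (m : ℕ) :
    ∃ X', Al Fm A f g X' ∧ ∀ z, X' z = true ↔ (X z = true ∧ m ≤ z) := by
  obtain ⟨X', h1, h2⟩ := al_ph3 hF h m ∅ (fun _ => true) (by simp) (by simpa using h.1)
  exact ⟨X', h1, fun z => by rw [h2]; simp⟩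

/-- clique conditions -/
def QA (Fm : Set Obj) (A : S) (f g : Col) (F : Finset ℕ) (n : ℕ) (X : S) : Prop :=
  (∀ x ∈ F, x < n) ∧ (∀ x, X x = true → n ≤ x) ∧ Al Fm A f g X ∧ clq g F ∧
    ∀ x ∈ F, ∀ z, X z = true → g x z = true

/-- mixed conditions -/
def QB (Fm : Set Obj) (A : S) (f g : Col) (X0 : S) (F : Finset ℕ) (n : ℕ) (X : S) : Prop :=
  (∀ x ∈ F, x < n) ∧ (∀ x, X x = true → n ≤ x) ∧ Al Fm A f g X ∧ Sub X X0 ∧ vld g F ∧
    ∃ b : S, (∀ x ∈ F, ∀ z, X z = true → g x z = b x) ∧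
      ∀ x ∈ F, ∀ y ∈ F, x < y → b x = true → b y = true → g x y = true

lemma extA {Bs : Set Fn} {Fm : Set Obj} (hF : Fam Bs Fm) {A : S} {f g : Col} {F : Finset ℕ} {n : ℕ}
    {X : S} (hQ : QA Fm A f g F n X) (E : Finset ℕ) (M : ℕ) (hE : ∀ x ∈ E, X x = true ∧ x < M)
    (hcl : clq g E) (hinf : {z | X z = true ∧ ∀ x ∈ E, g x z = true}.Infinite) :
    ∃ X', QA Fm A f g (F ∪ E) (max n M) X' ∧ Ext F n X (F ∪ E) (max n M) X' := by
  obtain ⟨q1, q2, q3, q4, q5⟩ := hQ
  obtain ⟨X', h1, h2⟩ := al_ph3 hF q3 (max n M) E (fun _ => true)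
    (fun x hx => lt_of_lt_of_le (hE x hx).2 (le_max_right _ _)) hinf
  refine ⟨X', ⟨?_, ?_, h1, ?_, ?_⟩, le_max_left _ _, fun z hz => ((h2 z).1 hz).1,
    Finset.subset_union_left, ?_⟩
  · intro x hx
    rcases Finset.mem_union.1 hx with h | h
    · exact lt_of_lt_of_le (q1 x h) (le_max_left _ _)
    · exact lt_of_lt_of_le (hE x h).2 (le_max_right _ _)
  · intro x hx
    exact ((h2 x).1 hx).2.1
  · intro x hx y hy hxy
    rcases Finset.mem_union.1 hx with h | h <;> rcases Finset.mem_union.1 hy with h' | h'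
    · exact q4 x h y h' hxy
    · exact q5 x h y (hE y h').1
    · have := q1 y h'
      have := q2 x (hE x h).1
      omega
    · exact hcl x h y h' hxy
  · intro x hx z hz
    rcases Finset.mem_union.1 hx with h | h
    · exact q5 x h z ((h2 z).1 hz).1
    · exact ((h2 z).1 hz).2.2 x h
  · intro x hx hxF
    rcases Finset.mem_union.1 hx with h | h
    · exact absurd h hxF
    · exact (hE x h).1

lemma extB {Bs : Set Fn} {Fm : Set Obj} (hF : Fam Bs Fm) {A : S} {f g : Col} {X0 : S}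
    {F : Finset ℕ} {n : ℕ} {X : S} (hQ : QB Fm A f g X0 F n X) (E : Finset ℕ) (M : ℕ)
    (hE : ∀ x ∈ E, X x = true ∧ x < M) (hv : vld g E) (b' : S)
    (hinf : {z | X z = true ∧ ∀ x ∈ E, g x z = b' x}.Infinite)
    (hb' : ∀ x ∈ E, ∀ y ∈ E, x < y → b' x = true → b' y = true → g x y = true) :
    ∃ X', QB Fm A f g X0 (F ∪ E) (max n M) X' ∧ Ext F n X (F ∪ E) (max n M) X' := by
  classical
  obtain ⟨q1, q2, q3, q4, q5, b, q6, q7⟩ := hQ
  obtain ⟨X', h1, h2⟩ := al_ph3 hF q3 (max n M) E b'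
    (fun x hx => lt_of_lt_of_le (hE x hx).2 (le_max_right _ _)) hinf
  have hlt : ∀ x ∈ F, ∀ y ∈ E, x < y := fun x hx y hy =>
    lt_of_lt_of_le (q1 x hx) (q2 y (hE y hy).1)
  refine ⟨X', ⟨?_, ?_, h1, fun z hz => q4 z ((h2 z).1 hz).1, ?_, fun x => if x ∈ F then b x else b' x,
    ?_, ?_⟩, le_max_left _ _, fun z hz => ((h2 z).1 hz).1, Finset.subset_union_left, ?_⟩
  · intro x hx
    rcases Finset.mem_union.1 hx with h | h
    · exact lt_of_lt_of_le (q1 x h) (le_max_left _ _)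
    · exact lt_of_lt_of_le (hE x h).2 (le_max_right _ _)
  · intro x hx
    exact ((h2 x).1 hx).2.1
  · intro x hx y hy z hz hxy hyz hpat
    rcases Finset.mem_union.1 hx with hx | hx
    · rcases Finset.mem_union.1 hy with hy | hy
      · rcases Finset.mem_union.1 hz with hz | hz
        · exact q5 x hx y hy z hz hxy hyz hpat
        · have e1 := q6 x hx z (hE z hz).1
          have e2 := q6 y hy z (hE z hz).1
          rw [hpat.2.1] at e1
          rw [hpat.2.2] at e2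
          have e3 := q7 x hx y hy hxy e1.symm e2.symm
          rw [hpat.1] at e3
          exact Bool.false_ne_true e3
      · rcases Finset.mem_union.1 hz with hz | hz
        · have := hlt z hz y hy
          omega
        · have e1 := q6 x hx y (hE y hy).1
          have e2 := q6 x hx z (hE z hz).1
          rw [hpat.1] at e1
          rw [hpat.2.1] at e2
          rw [← e1] at e2
          exact Bool.false_ne_true e2.symm
    · rcases Finset.mem_union.1 hy with hy | hy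
      · have := hlt y hy x hx
        omega
      · rcases Finset.mem_union.1 hz with hz | hz
        · have := hlt z hz x hx
          omega
        · exact hv x hx y hy z hz hxy hyz hpat
  · intro x hx z hz
    by_cases hxF : x ∈ F
    · simp only [if_pos hxF]
      exact q6 x hxF z ((h2 z).1 hz).1
    · simp only [if_neg hxF]
      rcases Finset.mem_union.1 hx with h | h
      · exact absurd h hxF
      · exact ((h2 z).1 hz).2.2 x h
  · intro x hx y hy hxy hbx hby
    rcases Finset.mem_union.1 hx with hx' | hx' <;> rcases Finset.mem_union.1 hy with hy' | hy'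
    · simp only [if_pos hx'] at hbx
      simp only [if_pos hy'] at hby
      exact q7 x hx' y hy' hxy hbx hby
    · simp only [if_pos hx'] at hbx
      rw [q6 x hx' y (hE y hy').1, hbx]
    · have := hlt y hy' x hx'
      omega
    · have hxF : x ∉ F := fun h => lt_irrefl _ (hlt x h x hx')
      have hyF : y ∉ F := fun h => lt_irrefl _ (hlt y h y hy')
      simp only [if_neg hxF] at hbx
      simp only [if_neg hyF] at hby
      exact hb' x hx' y hy' hxy hbx hby
  · intro x hx hxF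
    rcases Finset.mem_union.1 hx with h | h
    · exact absurd h hxF
    · exact (hE x h).1

lemma clq_vld {g : Col} {E : Finset ℕ} (h : clq g E) : vld g E := by
  intro x hx y hy z _ hxy _ hpat
  have := h x hx y hy hxy
  rw [hpat.1] at this
  exact Bool.false_ne_true this

lemma vld_sub {g : Col} {E E' : Finset ℕ} (h : E ⊆ E') (hv : vld g E') : vld g E :=
  fun x hx y hy z hz => hv x (h hx) y (h hy) z (h hz)

lemma clq_sub {g : Col} {E E' : Finset ℕ} (h : E ⊆ E') (hv : clq g E') : clq g E :=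
  fun x hx y hy => hv x (h hx) y (h hy)

/-- the bad situation for clique conditions -/
def Bad (Fm : Set Obj) (A : S) (f g : Col) (Γ1 : Fn) (F1 : Finset ℕ) (i1 : Bool) (X0 : S) : Prop :=
  (∀ m M E v, KK Γ1 F1 ⟨f, g, X0, zC⟩ m M E v →
    {z | X0 z = true ∧ ∀ x ∈ E, g x z = true}.Infinite → A v ≠ i1) ∧
  (∀ X', Al Fm A f g X' → Sub X' X0 → ∀ m, ∃ M E v, KK Γ1 F1 ⟨f, g, X', zC⟩ m M E v)

lemma bad_of_add {Bs : Set Fn} {Fm : Set Obj} (hF : Fam Bs Fm) {A : S} {f g : Col} {F1 : Finset ℕ}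
    {n1 : ℕ} {X0 : S} (hQ : QA Fm A f g F1 n1 X0)
    (hno : ∀ F' n' X', QA Fm A f g F' n' X' → Ext F1 n1 X0 F' n' X' → ¬ F1.card < F'.card)
    (i1 : Bool) : Bad Fm A f g (fun v k G _ => v < k ∧ G v = true) F1 i1 X0 := by
  constructor
  · intro m M E v hKK hinf
    exfalso
    obtain ⟨⟨x, hx⟩, hE, -⟩ := hKK
    have hxX : X0 x = true := (hE x hx).2.2
    obtain ⟨X', h1, h2⟩ := extA hF hQ {x} (x + 1) (by
      intro y hy
      rw [Finset.mem_singleton] at hy
      subst hy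
      exact ⟨hxX, Nat.lt_succ_self _⟩) (by
      intro y hy z hz hyz
      rw [Finset.mem_singleton] at hy hz
      omega) (hinf.mono (by
      rintro z ⟨h3, h4⟩
      refine ⟨h3, fun y hy => ?_⟩
      rw [Finset.mem_singleton] at hy
      subst hy
      exact h4 y hx))
    refine hno _ _ _ h1 h2 ?_
    have hxF : x ∉ F1 := fun h => by
      have := hQ.1 x h
      have := hQ.2.1 x hxX
      omega
    rw [Finset.card_union_of_disjoint (Finset.disjoint_singleton_right.2 hxF), Finset.card_singleton]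
    exact Nat.lt_succ_self _
  · intro X' hX' _ m
    obtain ⟨x, hx, hmx⟩ := hX'.1.exists_gt m
    refine ⟨x + 1, {x}, x, ⟨x, Finset.mem_singleton_self x⟩, ?_, ?_, hmx.le, Nat.lt_succ_self x,
      Nat.lt_succ_self x, ?_⟩
    · intro y hy
      rw [Finset.mem_singleton] at hy
      subst hy
      exact ⟨hmx.le, Nat.lt_succ_self _, hx⟩
    · intro y hy z hz hyz
      rw [Finset.mem_singleton] at hy hz
      omega
    · simp [ind]

lemma bad_of_met {Bs : Set Fn} {Fm : Set Obj} (hF : Fam Bs Fm) {A : S} {f g : Col} {F1 : Finset ℕ}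
    {n1 : ℕ} {X0 : S} (hQ : QA Fm A f g F1 n1 X0) {Γ : Fn} (hG : GoodFn Γ) (i : Bool)
    (hno : ∀ F' n' X', QA Fm A f g F' n' X' → Ext F1 n1 X0 F' n' X' →
      ¬ Met A f (clq g) Γ i F' n' X') : Bad Fm A f g Γ F1 i X0 := by
  classical
  constructor
  · intro m M E v hKK hinf hAv
    obtain ⟨-, hE, hcl, -, -, hΓ⟩ := hKK
    obtain ⟨X', h1, h2⟩ := extA hF hQ E M (fun x hx => ⟨(hE x hx).2.2, (hE x hx).2.1⟩) hcl hinf
    exact hno _ _ _ h1 h2 (Or.inl ⟨v, M, le_max_right _ _, hΓ, hAv⟩)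
  · intro X' hX' hsub m
    obtain ⟨X'', h1, h2⟩ := al_res hF hX' m
    have hQ'' : QA Fm A f g F1 n1 X'' := by
      refine ⟨hQ.1, fun x hx => hQ.2.1 x (hsub x ((h2 x).1 hx).1), h1, hQ.2.2.2.1, fun x hx z hz => ?_⟩
      exact hQ.2.2.2.2 x hx z (hsub z ((h2 z).1 hz).1)
    have hnm := hno _ _ _ hQ'' ⟨le_rfl, fun x hx => hsub x ((h2 x).1 hx).1, subset_rfl,
      fun x h h' => absurd h h'⟩
    unfold Met at hnm
    push Not at hnm
    obtain ⟨E, hE, hcl, M, hM, v, hv, hΓ⟩ := hnm.2 m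
    rcases E.eq_empty_or_nonempty with rfl | hne
    · obtain ⟨x, hx, hMx⟩ := h1.1.exists_gt M
      refine ⟨max (x + 1) (v + 1), {x}, v, ⟨x, Finset.mem_singleton_self x⟩, ?_, ?_, hv, ?_, ?_⟩
      · intro y hy
        rw [Finset.mem_singleton] at hy
        subst hy
        exact ⟨((h2 y).1 hx).2, lt_of_lt_of_le (Nat.lt_succ_self _) (le_max_left _ _),
          ((h2 y).1 hx).1⟩
      · intro y hy z hz hyz
        rw [Finset.mem_singleton] at hy hz
        omega
      · exact lt_of_lt_of_le (Nat.lt_succ_self _) (le_max_right _ _)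
      · refine hG.mono v M _ _ _ ?_ (hG.dep v M _ _ f f ?_ (fun _ _ _ _ => rfl) hΓ)
        · exact (hMx.le.trans (Nat.le_succ x)).trans (le_max_left _ _)
        · intro y hy
          have : y ≠ x := by
            have : M < x := hMx
            omega
          simp [ind, this]
    · refine ⟨max M (v + 1), E, v, hne, ?_, hcl, hv, ?_, hG.mono v M _ _ _ (le_max_left _ _) hΓ⟩
      · intro x hx
        exact ⟨((h2 x).1 (hE x hx)).2, lt_of_lt_of_le (hM x hx) (le_max_left _ _),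
          ((h2 x).1 (hE x hx)).1⟩
      · exact lt_of_lt_of_le (Nat.lt_succ_self _) (le_max_right _ _)

theorem t : TaskG := by
  intro hM hW hA hL Bs Fm hBc hgood hid hFam A f g hAl
  classical
  have hQ0 : QA Fm A f g ∅ 0 (fun _ => true) :=
    ⟨by simp, fun _ _ => Nat.zero_le _, hAl, by intro x hx; simp at hx, by simp⟩
  have hfinal : ∀ (P : Finset ℕ → Prop), (∀ E, P E → vld g E) →
      (∃ G : S, {x | G x = true}.Infinite ∧ (∀ E : Finset ℕ, (∀ x ∈ E, G x = true) → P E) ∧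
      ∀ Γ ∈ Bs, ∀ i : Bool, (∃ v k, Γ v k G f ∧ A v = i) ∨ ∃ m, ∀ v k, Γ v k G f → v < m) →
      ∃ G : S, {x | G x = true}.Infinite ∧
      (∀ x y z, x < y → y < z → G x = true → G y = true → G z = true →
        ¬ (g x y = false ∧ g x z = true ∧ g y z = true)) ∧
      ∀ Γ ∈ Bs, ∀ i : Bool, (∃ v k, Γ v k G f ∧ A v = i) ∨ ∃ m, ∀ v k, Γ v k G f → v < m := by
    rintro P hP ⟨G, h1, h2, h3⟩
    refine ⟨G, h1, fun x y z hxy hyz hx hy hz => ?_, h3⟩
    have h4 := hP _ (h2 {x, y, z} (by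
      intro w hw
      simp only [Finset.mem_insert, Finset.mem_singleton] at hw
      rcases hw with rfl | rfl | rfl
      · exact hx
      · exact hy
      · exact hz))
    exact h4 x (by simp) y (by simp) z (by simp) hxy hyz
  by_cases hcase : ∃ (Γ1 : Fn) (F1 : Finset ℕ) (n1 : ℕ) (i1 : Bool) (X0 : S), Γ1 ∈ Bs ∧
      QA Fm A f g F1 n1 X0 ∧ Bad Fm A f g Γ1 F1 i1 X0
  · -- mixed conditions
    obtain ⟨Γ1, F1, n1, i1, X0, hΓ1, hQ1, hN0, hN0'⟩ := hcase
    refine hfinal (vld g) (fun _ h => h) (iterate A f (vld g) (fun E E' h h' => vld_sub h h') Bs hBc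
      ⟨_, hid⟩ hgood (QB Fm A f g X0) ?_ ?_ ?_ ?_)
    · intro F n X hQ
      exact ⟨hQ.1, hQ.2.1, hQ.2.2.2.2.1⟩
    · intro F n X hQ
      obtain ⟨x, hx⟩ := hQ.2.2.1.1.nonempty
      have hx' : X x = true := hx
      -- pigeonhole
      have hpig : ∃ b : Bool, {z | X z = true ∧ g x z = b}.Infinite := by
        by_contra hcon
        push Not at hcon
        have h1 := hcon true
        have h2 := hcon false
        refine hQ.2.2.1.1 ((h1.union h2).subset ?_)
        intro z hz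
        by_cases hgz : g x z = true
        · exact Or.inl ⟨hz, hgz⟩
        · exact Or.inr ⟨hz, by simpa using hgz⟩
      obtain ⟨b, hb⟩ := hpig
      obtain ⟨X', h1, h2⟩ := extB hFam hQ {x} (x + 1) (by
        intro y hy
        rw [Finset.mem_singleton] at hy
        subst hy
        exact ⟨hx', Nat.lt_succ_self _⟩) (by
        intro y hy z hz w _ hyz _
        rw [Finset.mem_singleton] at hy hz
        omega) (fun _ => b) (hb.mono (by
        rintro z ⟨h3, h4⟩
        refine ⟨h3, fun y hy => ?_⟩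
        rw [Finset.mem_singleton] at hy
        subst hy
        exact h4)) (by
        intro y hy z hz hyz
        rw [Finset.mem_singleton] at hy hz
        omega)
      refine ⟨_, _, _, h1, h2, ?_⟩
      have hxF : x ∉ F := fun h => by
        have := hQ.1 x h
        have := hQ.2.1 x hx'
        omega
      rw [Finset.card_union_of_disjoint (Finset.disjoint_singleton_right.2 hxF),
        Finset.card_singleton]
      exact Nat.lt_succ_self _
    · intro Γ hΓ i F n X hQ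
      by_contra hcon
      push Not at hcon
      have hG := hgood Γ hΓ
      refine hM hW hA hL Bs Fm hFam A f g X0 X Γ1 Γ F1 F i1 i hΓ1 (hgood Γ1 hΓ1) hΓ hG hQ.2.2.1
        hQ.2.2.2.1 hN0 hN0' ?_ ?_
      · intro m M E v b hVV hinf hb hAv
        obtain ⟨hE, hv, -, -, hΓv⟩ := hVV
        obtain ⟨X', h1, h2⟩ := extB hFam hQ E M (fun x hx => ⟨(hE x hx).2.2, (hE x hx).2.1⟩) hv b
          hinf hb
        exact hcon _ _ _ h1 h2 (Or.inl ⟨v, M, le_max_right _ _, hΓv, hAv⟩)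
      · intro X' hX' hsub m
        obtain ⟨X'', h1, h2⟩ := al_res hFam hX' m
        have hsub2 : Sub X'' X := fun x hx => hsub x ((h2 x).1 hx).1
        have hQ'' : QB Fm A f g X0 F n X'' := by
          obtain ⟨q1, q2, q3, q4, q5, b, q6, q7⟩ := hQ
          exact ⟨q1, fun x hx => q2 x (hsub2 x hx), h1, fun x hx => q4 x (hsub2 x hx), q5, b,
            fun x hx z hz => q6 x hx z (hsub2 z hz), q7⟩
        have hnm := hcon _ _ _ hQ'' ⟨le_rfl, hsub2, subset_rfl, fun x h h' => absurd h h'⟩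
        unfold Met at hnm
        push Not at hnm
        obtain ⟨E, hE, hv, M, hM', v, hmv, hΓv⟩ := hnm.2 m
        refine ⟨max M (v + 1), E, v, ?_, hv, hmv, ?_, hG.mono v M _ _ _ (le_max_left _ _) hΓv⟩
        · intro x hx
          exact ⟨((h2 x).1 (hE x hx)).2, lt_of_lt_of_le (hM' x hx) (le_max_left _ _),
            ((h2 x).1 (hE x hx)).1⟩
        · exact lt_of_lt_of_le (Nat.lt_succ_self _) (le_max_right _ _)
    · refine ⟨∅, n1, X0, by simp, hQ1.2.1, hQ1.2.2.1, fun _ h => h, ?_, fun _ => true, by simp, by simp⟩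
      intro x hx
      simp at hx
  · push Not at hcase
    refine hfinal (clq g) (fun _ h => clq_vld h) (iterate A f (clq g) (fun E E' h h' => clq_sub h h')
      Bs hBc ⟨_, hid⟩ hgood (QA Fm A f g) ?_ ?_ ?_ ⟨_, _, _, hQ0⟩)
    · intro F n X hQ
      exact ⟨hQ.1, hQ.2.1, hQ.2.2.2.1⟩
    · intro F n X hQ
      by_contra hcon
      push Not at hcon
      exact hcase _ F n true X hid hQ (bad_of_add hFam hQ
        (fun F' n' X' h1 h2 => not_lt.2 (hcon F' n' X' h1 h2)) true)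
    · intro Γ hΓ i F n X hQ
      by_contra hcon
      push Not at hcon
      exact hcase Γ F n i X hΓ hQ (bad_of_met hFam hQ (hgood Γ hΓ) i hcon)

end Pool.Agent.H904R6.CR.G
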