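import Pool.Agent.H904R6.CR.Stmts

set_option autoImplicit false

namespace Pool.Agent.H904R6.CR.Good

open Pool.Agent.H904R6.CR

theorem agS_mono {j k : ℕ} (h : j ≤ k) {a b : S} (hab : agS k a b) : agS j a b :=
  fun n hn => hab n (lt_of_lt_of_le hn h)

theorem agC_mono {j k : ℕ} (h : j ≤ k) {a b : Col} (hab : agC k a b) : agC j a b :=
  fun n hn m hm => hab n (lt_of_lt_of_le hn h) m (lt_of_lt_of_le hm h)

theorem agA_mono {j k : ℕ} (h : j ≤ k) {a b : Cs} (hab : agA k a b) : agA j a b :=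
  fun n hn => hab n (lt_of_lt_of_le hn h)

theorem agA_symm {k : ℕ} {a b : Cs} (hab : agA k a b) : agA k b a :=
  fun n hn => (hab n hn).symm

theorem ag_mono {j k : ℕ} (h : j ≤ k) {Z W : Om} (hZ : ag k Z W) : ag j Z W :=
  ⟨agC_mono h hZ.1, agC_mono h hZ.2.1, agS_mono h hZ.2.2.1, agA_mono h hZ.2.2.2⟩

theorem ag_symm {k : ℕ} {Z W : Om} (hZ : ag k Z W) : ag k W Z :=
  ⟨fun n hn m hm => (hZ.1 n hn m hm).symm, fun n hn m hm => (hZ.2.1 n hn m hm).symm,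
    fun n hn => (hZ.2.2.1 n hn).symm, agA_symm hZ.2.2.2⟩

theorem agA_refl (k : ℕ) (C : Cs) : agA k C C := fun _ _ => rfl

theorem ag_wC {k : ℕ} {Z W : Om} (hZ : ag k Z W) {C D : Cs} (hC : agA k C D) :
    ag k (Z.wC C) (W.wC D) := ⟨hZ.1, hZ.2.1, hZ.2.2.1, hC⟩

theorem fst_ag {T : Obj} (hT : T.Good) {m j k : ℕ} (hj : j ≤ k) {Z W : Om} (hZ : ag k Z W)
    (h : fst T m j Z) : fst T m j W := by
  refine ⟨hT.hbd m j Z W (ag_mono hj hZ) h.1, fun i hi hb => h.2 i hi ?_⟩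
  exact hT.hbd m i W Z (ag_symm (ag_mono (hi.le.trans hj) hZ)) hb

theorem goodW (O T : Obj) (hO : O.Good) (hT : T.Good) : (opW O T).Good where
  hbd := by
    intro m k Z W hZ h C
    rcases h C with h | ⟨j, hj, h⟩
    · exact Or.inl (hO.ho k C C Z W hZ (agA_refl k C) h)
    · exact Or.inr ⟨j, hj, hT.hbd m j _ _ (ag_mono hj (ag_wC hZ (agA_refl k C))) h⟩
  hq := by
    rintro m b k α β Z W hZ hαβ ⟨hbk, h⟩
    refine ⟨hbk, fun C => ?_⟩
    rcases h C with h | ⟨j, hj, h1, h2⟩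
    · exact Or.inl (hO.ho k C C Z W hZ (agA_refl k C) h)
    · refine Or.inr ⟨j, hj, fst_ag hT (hj.trans hbk) (ag_wC hZ (agA_refl k C)) h1, ?_⟩
      exact hT.hq m j k α β _ _ (ag_wC hZ (agA_refl k C))
        (fun n h3 h4 => hαβ n h3 (lt_of_lt_of_le h4 hj)) h2
  hqm := by
    rintro m b k l α Z hkl ⟨hbk, h⟩
    refine ⟨hbk.trans hkl, fun C => ?_⟩
    rcases h C with h | ⟨j, hj, h1, h2⟩
    · exact Or.inl (hO.hom k l C Z hkl h)
    · exact Or.inr ⟨j, hj, h1, hT.hqm m j k l α _ hkl h2⟩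
  ho := hO.ho
  hom := hO.hom

theorem good3a (O T : Obj) (m : ℕ) (hO : O.Good) (hT : T.Good) : (op3a m O T).Good where
  hbd := hT.hbd
  hq := hT.hq
  hqm := hT.hqm
  ho := by
    intro k C D Z W hZ hC h
    rcases h with h | ⟨j, hj, h⟩
    · exact Or.inl (hO.ho k C D Z W hZ hC h)
    · exact Or.inr ⟨j, hj, hT.hbd m j _ _ (ag_mono hj (ag_wC hZ hC)) h⟩
  hom := by
    intro k l C Z hkl h
    rcases h with h | ⟨j, hj, h⟩
    · exact Or.inl (hO.hom k l C Z hkl h)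
    · exact Or.inr ⟨j, hj.trans hkl, h⟩

theorem good3b (O T : Obj) (m b K : ℕ) (hO : O.Good) (hT : T.Good) : (op3b m b K O T).Good where
  hbd := hT.hbd
  hq := hT.hq
  hqm := hT.hqm
  ho := by
    intro k C D Z W hZ hC h
    rcases h with h | ⟨h1, h2, h3⟩
    · exact Or.inl (hO.ho k C D Z W hZ hC h)
    · refine Or.inr ⟨h1, h2, fun h4 => h3 ⟨?_, fun α => ?_⟩⟩
      · exact fst_ag hT h1 (ag_symm (ag_wC hZ hC)) h4.1
      · exact hT.hq m b K α α _ _ (ag_symm (ag_mono h2 (ag_wC hZ hC))) (fun _ _ _ => rfl) (h4.2 α)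
  hom := by
    intro k l C Z hkl h
    rcases h with h | ⟨h1, h2, h3⟩
    · exact Or.inl (hO.hom k l C Z hkl h)
    · exact Or.inr ⟨h1.trans hkl, h2.trans hkl, h3⟩

theorem good3c (O T : Obj) (m b : ℕ) (a : Finset ℕ) (hO : O.Good) (hT : T.Good) :
    (op3c m b a O T).Good where
  hbd := hT.hbd
  hq := hT.hq
  hqm := hT.hqm
  ho := by
    intro k C D Z W hZ hC h
    rcases h with h | ⟨h1, h2⟩ | h
    · exact Or.inl (hO.ho k C D Z W hZ hC h)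
    · exact Or.inr (Or.inl ⟨h1, fun h3 => h2 (fst_ag hT h1 (ag_symm (ag_wC hZ hC)) h3)⟩)
    · exact Or.inr (Or.inr (hT.hq m b k _ _ _ _ (ag_wC hZ hC) (fun _ _ _ => rfl) h))
  hom := by
    intro k l C Z hkl h
    rcases h with h | ⟨h1, h2⟩ | h
    · exact Or.inl (hO.hom k l C Z hkl h)
    · exact Or.inr (Or.inl ⟨h1.trans hkl, h2⟩)
    · exact Or.inr (Or.inr (hT.hqm m b k l _ _ hkl h))

theorem goodSub (φ : Om → Om) (hφ : ∀ k Z W, ag k Z W → ag k (φ Z) (φ W)) (T : Obj)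
    (hT : T.Good) : (sub φ T).Good where
  hbd := fun m k Z W hZ h => hT.hbd m k _ _ (hφ k Z W hZ) h
  hq := fun m b k α β Z W hZ hαβ h => hT.hq m b k α β _ _ (hφ k Z W hZ) hαβ h
  hqm := fun m b k l α Z hkl h => hT.hqm m b k l α _ hkl h
  ho := hT.ho
  hom := hT.hom

theorem ph1_ag (i : ℕ) (k : ℕ) (Z W : Om) (hZ : ag k Z W) : ag k (ph1 i Z) (ph1 i W) := by
  refine ⟨hZ.1, hZ.2.1, fun n hn => ?_, fun _ _ => rfl⟩
  show (Z.X n && decide ((Z.C n : ℕ) = i)) = (W.X n && decide ((W.C n : ℕ) = i))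
  rw [hZ.2.2.1 n hn, hZ.2.2.2 n hn]

theorem ph2_ag (k : ℕ) (Z W : Om) (hZ : ag k Z W) : ag k (ph2 Z) (ph2 W) := by
  refine ⟨hZ.1, hZ.2.1, fun n hn => ?_, fun _ _ => rfl⟩
  show decide ((Z.C n : ℕ) = 1) = decide ((W.C n : ℕ) = 1)
  rw [hZ.2.2.2 n hn]

theorem ph3_ag (n : ℕ) (E B : Finset ℕ) (k : ℕ) (Z W : Om) (hZ : ag k Z W) :
    ag k (ph3 n E B Z) (ph3 n E B W) := by
  refine ⟨hZ.1, hZ.2.1, fun z hz => ?_, fun _ _ => rfl⟩
  show (Z.X z && decide (n ≤ z ∧ ∀ x ∈ E, x < n → Z.g x z = decide (x ∈ B))) =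
    (W.X z && decide (n ≤ z ∧ ∀ x ∈ E, x < n → W.g x z = decide (x ∈ B)))
  rw [hZ.2.2.1 z hz]
  congr 1
  rw [decide_eq_decide]
  refine and_congr_right fun hnz => ?_
  refine forall_congr' fun x => forall_congr' fun _ => forall_congr' fun hx => ?_
  rw [hZ.2.1 x (lt_trans (lt_of_lt_of_le hx hnz) hz) z hz]

theorem t : TaskGood :=
  ⟨goodW, fun O T m hO hT => good3a O T m hO hT, fun O T m b K hO hT => good3b O T m b K hO hT,
    fun O T m b a hO hT => good3c O T m b a hO hT,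
    fun T i hT => goodSub _ (ph1_ag i) T hT, fun T hT => goodSub _ ph2_ag T hT,
    fun T n E B hT => goodSub _ (ph3_ag n E B) T hT⟩

end Pool.Agent.H904R6.CR.Good
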