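import Pool.Agent.H904R6.CR.Stmts

set_option autoImplicit false

/-!
# PROJECT H904-RT: the objects `objA` are good
-/

namespace Pool.Agent.H904R6.CR

theorem KK.congr {Γ : Fn} (hΓ : GoodFn Γ) {F : Finset ℕ} {Z W : Om} {k m M : ℕ} {E : Finset ℕ}
    {v : ℕ} (hM : M ≤ k) (h : ag k Z W) (hK : KK Γ F Z m M E v) : KK Γ F W m M E v := by
  obtain ⟨hf, hg, hX, _⟩ := h
  obtain ⟨h1, h2, h3, h4, h5, h6⟩ := hK
  refine ⟨h1, fun x hx => ?_, fun x hx y hy hxy => ?_, h4, h5, ?_⟩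
  · obtain ⟨h7, h8, h9⟩ := h2 x hx
    exact ⟨h7, h8, by rw [← hX x (lt_of_lt_of_le h8 hM)]; exact h9⟩
  · have hx' := (h2 x hx).2.1
    have hy' := (h2 y hy).2.1
    rw [← hg x (lt_of_lt_of_le hx' hM) y (lt_of_lt_of_le hy' hM)]
    exact h3 x hx y hy hxy
  · exact hΓ.dep v M _ _ _ _ (fun n _ => rfl)
      (fun x hx y hy => hf x (lt_of_lt_of_le hx hM) y (lt_of_lt_of_le hy hM)) h6

theorem taskGoodA : TaskGoodA := by
  intro Γ F m hΓ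
  refine ⟨?_, ?_, ?_, ?_, ?_⟩
  · intro m' k Z W _ h
    exact h
  · intro m' b k α β Z W _ _ h
    exact h
  · intro m' b k l α Z _ h
    exact h
  · intro k C D Z W hZ hC h
    rcases h with ⟨x, hx, hmx, h1⟩ | ⟨M, hM, E, v, i, hK, h1⟩
    · exact Or.inl ⟨x, hx, hmx, by rw [← hC x hx]; exact h1⟩
    · refine Or.inr ⟨M, hM, E, v, i, hK.congr hΓ hM hZ, fun x hx => ?_⟩
      rw [← hC x (lt_of_lt_of_le (hK.2.1 x hx).2.1 hM)]
      exact h1 x hx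
  · intro k l C Z hkl h
    rcases h with ⟨x, hx, h1⟩ | ⟨M, hM, h1⟩
    · exact Or.inl ⟨x, lt_of_lt_of_le hx hkl, h1⟩
    · exact Or.inr ⟨M, hM.trans hkl, h1⟩

end Pool.Agent.H904R6.CR
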