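import Pool.Agent.H904R6.CR.Stmts

set_option autoImplicit false

/-! Task GoodB. -/

namespace Pool.Agent.H904R6.CR.GoodB

open Pool.Agent.H904R6.CR

theorem ag_symm {k : ℕ} {Z W : Om} (h : ag k Z W) : ag k W Z :=
  ⟨fun x hx y hy => (h.1 x hx y hy).symm, fun x hx y hy => (h.2.1 x hx y hy).symm,
    fun n hn => (h.2.2.1 n hn).symm, fun n hn => (h.2.2.2 n hn).symm⟩

theorem agC_mono {j k : ℕ} (hjk : j ≤ k) {f g : Col} (h : agC k f g) : agC j f g :=
  fun x hx y hy => h x (by omega) y (by omega)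

theorem kk_transfer {Γ : Fn} (hΓ : GoodFn Γ) {F : Finset ℕ} {k : ℕ} {Z W : Om} (h : ag k Z W)
    {m M : ℕ} (hM : M ≤ k) {E : Finset ℕ} {v : ℕ} (hk : KK Γ F Z m M E v) :
    KK Γ F W m M E v := by
  obtain ⟨h1, h2, h3, h4, h5, h6⟩ := hk
  refine ⟨h1, ?_, ?_, h4, h5, ?_⟩
  · intro x hx
    obtain ⟨a, b, c⟩ := h2 x hx
    refine ⟨a, b, ?_⟩
    rw [← h.2.2.1 x (by omega)]
    exact c
  · intro x hx y hy hxy
    have hx1 := (h2 x hx).2.1
    have hy1 := (h2 y hy).2.1
    rw [← h.2.1 x (by omega) y (by omega)]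
    exact h3 x hx y hy hxy
  · exact hΓ.dep v M _ _ _ _ (fun n _ => rfl) (agC_mono hM h.1) h6

theorem vv_transfer {Γ : Fn} (hΓ : GoodFn Γ) {F : Finset ℕ} {k : ℕ} {Z W : Om} (h : ag k Z W)
    {m M : ℕ} (hM : M ≤ k) {E : Finset ℕ} {v : ℕ} (hk : VV Γ F Z m M E v) :
    VV Γ F W m M E v := by
  obtain ⟨h2, h3, h4, h5, h6⟩ := hk
  refine ⟨?_, ?_, h4, h5, ?_⟩
  · intro x hx
    obtain ⟨a, b, c⟩ := h2 x hx
    refine ⟨a, b, ?_⟩
    rw [← h.2.2.1 x (by omega)]
    exact c
  · intro x hx y hy z hz hxy hyz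
    have hx1 := (h2 x hx).2.1
    have hy1 := (h2 y hy).2.1
    have hz1 := (h2 z hz).2.1
    rw [← h.2.1 x (by omega) y (by omega), ← h.2.1 x (by omega) z (by omega),
      ← h.2.1 y (by omega) z (by omega)]
    exact h3 x hx y hy z hz hxy hyz
  · exact hΓ.dep v M _ _ _ _ (fun n _ => rfl) (agC_mono hM h.1) h6

theorem large_transfer {Γ : Fn} (hΓ : GoodFn Γ) {F : Finset ℕ} {k : ℕ} {Z W : Om} (h : ag k Z W)
    {m M : ℕ} (hM : M ≤ k) (hl : Large Γ F Z m M) : Large Γ F W m M := by
  intro c hc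
  obtain ⟨i, E, v, h1, h2⟩ := hl c hc
  exact ⟨i, E, v, kk_transfer hΓ h hM h1, h2⟩

theorem large_lt {Γ : Fn} {F : Finset ℕ} {Z : Om} {m M : ℕ} (hl : Large Γ F Z m M) : m < M := by
  obtain ⟨i, E, v, h1, _⟩ := hl (fun _ => 0) (fun _ => by omega)
  obtain ⟨x, hx⟩ := h1.1
  have := h1.2.1 x hx
  omega

theorem t : TaskGoodB := by
  intro Γ1 F1 Γ F m h1 h2
  refine ⟨?_, ?_, ?_, ?_, ?_⟩
  · intro _ _ _ _ _ h
    exact h
  · intro _ _ _ _ _ _ _ _ _ h
    exact h
  · intro _ _ _ _ _ _ _ h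
    exact h
  · intro k C D Z W hZW hCD h
    rcases h with ⟨y, hy, hy1, hy2⟩ | ⟨M, hM, E, v, hV, hE⟩ | ⟨e, t, he0, hj, hk, ht, hy⟩
    · left
      refine ⟨y, hy, ?_, ?_⟩
      · rw [← hCD y hy]
        exact hy1
      · rw [← hZW.2.2.1 y hy]
        exact hy2
    · right
      left
      refine ⟨M, hM, E, v, vv_transfer h2 hZW hM hV, ?_⟩
      intro x hx
      have hx1 := (hV.1 x hx).2.1
      rw [← hCD x (by omega)]
      exact hE x hx
    · right
      right
      -- `e` is increasing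
      have hstep : ∀ j ≤ t, e j < e (j + 1) := fun j hj' => large_lt (hj j hj').1
      have hlow : ∀ j ≤ t + 1, j ≤ e j := by
        intro j
        induction j with
        | zero => intro _; exact Nat.zero_le _
        | succ j ih =>
          intro hj'
          have h3 := ih (by omega)
          have h4 := hstep j (by omega)
          omega
      have hup : ∀ d j, j + d = t + 1 → e j ≤ e (t + 1) := by
        intro d
        induction d with
        | zero => intro j hjd; rw [show j = t + 1 by omega]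
        | succ d ih =>
          intro j hjd
          have h3 := ih (j + 1) (by omega)
          have h4 := hstep j (by omega)
          omega
      refine ⟨e, t, he0, ?_, hk, ?_, ?_⟩
      · intro j hj'
        have h3 : e (j + 1) ≤ e (t + 1) := hup (t - j) (j + 1) (by omega)
        obtain ⟨a, b⟩ := hj j hj'
        refine ⟨large_transfer h1 hZW (by omega) a, ?_⟩
        intro M hM
        by_contra hlt
        push Not at hlt
        have h4 : Large Γ1 F1 Z (e j) M := large_transfer h1 (ag_symm hZW) (by omega) hM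
        have h5 := b h4
        omega
      · rcases ht with ht | ht
        · exact Or.inl ht
        · rcases Nat.eq_zero_or_pos t with h0 | h0
          · exact Or.inl h0
          · right
            have h3 := hlow t (by omega)
            have h4 := hstep t le_rfl
            rw [← hCD (t - 1) (by omega)]
            exact ht
      · intro y hy1 hy2
        rw [← hCD y (by omega)]
        exact hy y hy1 hy2
  · intro k l C Z hkl h
    rcases h with ⟨y, hy, hy1⟩ | ⟨M, hM, h⟩ | ⟨e, t, he0, hj, hk, h⟩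
    · exact Or.inl ⟨y, hy.trans_le hkl, hy1⟩
    · exact Or.inr (Or.inl ⟨M, hM.trans hkl, h⟩)
    · exact Or.inr (Or.inr ⟨e, t, he0, hj, hk.trans hkl, h⟩)

end Pool.Agent.H904R6.CR.GoodB
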