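import Pool.Agent.H904R6.CR.Stmts

/-!
Task L of project H904-RT (helper444): the combinatorial core.
-/

set_option autoImplicit false

namespace Pool.Agent.H904R6.CR.L

open Pool.Agent.H904R6.CR

/-- indices of the subtree of `J_t` -/
inductive Sb (e : ℕ → ℕ) (X : S) (t : ℕ) : ℕ → Prop
  | refl : Sb e X t t
  | step {s y : ℕ} : Sb e X t s → e s ≤ y → y < e (s + 1) → X y = true → Sb e X t (y + 1)

lemma idx_unique {e : ℕ → ℕ} (he : StrictMono e) {s s' v : ℕ} (h1 : e s ≤ v) (h2 : v < e (s + 1))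
    (h3 : e s' ≤ v) (h4 : v < e (s' + 1)) : s = s' := by
  rcases lt_trichotomy s s' with h | h | h
  · have : e (s + 1) ≤ e s' := he.monotone h
    omega
  · exact h
  · have : e (s' + 1) ≤ e s := he.monotone h
    omega

lemma idx_exists {e : ℕ → ℕ} (he : StrictMono e) {v : ℕ} (h0 : e 0 ≤ v) :
    ∃ s, e s ≤ v ∧ v < e (s + 1) := by
  classical
  have hex : ∃ n, v < e (n + 1) := ⟨v, lt_of_lt_of_le (Nat.lt_succ_self v) (he.le_apply)⟩
  refine ⟨Nat.find hex, ?_, Nat.find_spec hex⟩
  rcases Nat.eq_zero_or_pos (Nat.find hex) with h | h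
  · rw [h]; exact h0
  · have := Nat.find_min hex (Nat.sub_lt h one_pos)
    have hh : Nat.find hex - 1 + 1 = Nat.find hex := by omega
    rw [hh] at this
    omega

lemma Sb.le {e : ℕ → ℕ} (he : StrictMono e) {X : S} {t s : ℕ} (h : Sb e X t s) : t ≤ s := by
  induction h with
  | refl => exact le_rfl
  | @step s y _ h1 _ _ ih =>
    have : s ≤ e s := he.le_apply
    omega

lemma Sb.child {e : ℕ → ℕ} {X : S} {t y s : ℕ} (h1 : e t ≤ y) (h2 : y < e (t + 1))
    (h3 : X y = true) (h : Sb e X (y + 1) s) : Sb e X t s := by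
  induction h with
  | refl => exact Sb.step Sb.refl h1 h2 h3
  | step _ g1 g2 g3 ih => exact Sb.step ih g1 g2 g3

lemma Sb.cases' {e : ℕ → ℕ} {X : S} {t s : ℕ} (h : Sb e X t s) :
    s = t ∨ ∃ y, e t ≤ y ∧ y < e (t + 1) ∧ X y = true ∧ Sb e X (y + 1) s := by
  induction h with
  | refl => exact Or.inl rfl
  | @step s y _ g1 g2 g3 ih =>
    right
    rcases ih with rfl | ⟨z, z1, z2, z3, z4⟩
    · exact ⟨y, g1, g2, g3, Sb.refl⟩
    · exact ⟨z, z1, z2, z3, Sb.step z4 g1 g2 g3⟩

lemma Sb.inv {e : ℕ → ℕ} {X : S} {t s : ℕ} (h : Sb e X t s) :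
    s = t ∨ ∃ s' y, s = y + 1 ∧ e s' ≤ y ∧ y < e (s' + 1) ∧ Sb e X t s' := by
  cases h with
  | refl => exact Or.inl rfl
  | @step s' y h g1 g2 g3 => exact Or.inr ⟨s', y, rfl, g1, g2, h⟩

lemma not_Sb_self {e : ℕ → ℕ} (he : StrictMono e) {X : S} {t y : ℕ} (h1 : e t ≤ y) :
    ¬ Sb e X (y + 1) t := by
  intro h
  have := h.le he
  have : t ≤ e t := he.le_apply
  omega

lemma Sb.disj {e : ℕ → ℕ} (he : StrictMono e) {X : S} {t y y' s : ℕ} (h1 : e t ≤ y)
    (h2 : y < e (t + 1)) (h1' : e t ≤ y') (h2' : y' < e (t + 1)) (h : Sb e X (y + 1) s)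
    (h' : Sb e X (y' + 1) s) : y = y' := by
  induction h with
  | refl =>
    rcases h'.inv with h | ⟨s', z, hz, g1, g2, g3⟩
    · omega
    · have hzy : z = y := by omega
      subst hzy
      have := idx_unique he g1 g2 h1 h2
      subst this
      exact absurd g3 (not_Sb_self he h1')
  | @step s z hs k1 k2 k3 ih =>
    rcases h'.inv with h | ⟨s', z', hz, g1, g2, g3⟩
    · have hzy : z = y' := by omega
      subst hzy
      have := idx_unique he k1 k2 h1' h2'
      subst this
      exact absurd hs (not_Sb_self he h1)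
    · have hzy : z' = z := by omega
      subst hzy
      have := idx_unique he k1 k2 g1 g2
      subst this
      exact ih g3

/-- two colours along decreasing steps -/
noncomputable def colD (s : ℕ → ℕ) : ℕ → Bool
  | y => if _h : s y < y then !(colD s (s y)) else true

/-- two colours along increasing steps below `N` -/
noncomputable def colU (s : ℕ → ℕ) (N : ℕ) (y : ℕ) : Bool :=
  if _h : y < s y ∧ s y < N then !(colU s N (s y)) else true
termination_by N - y

lemma colD_eq (s : ℕ → ℕ) {y : ℕ} (h : s y < y) : colD s y = !(colD s (s y)) := by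
  rw [colD, dif_pos h]

lemma colU_eq (s : ℕ → ℕ) {N y : ℕ} (h : y < s y) (h' : s y < N) :
    colU s N y = !(colU s N (s y)) := by
  rw [colU, dif_pos ⟨h, h'⟩]

/-- the four sibling colours -/
noncomputable def sc (s : ℕ → ℕ) (N y : ℕ) : ℕ :=
  if s y < y then (if colD s y then 0 else 1) else (if colU s N y then 2 else 3)

lemma sc_lt (s : ℕ → ℕ) (N y : ℕ) : sc s N y < 4 := by
  unfold sc
  split_ifs <;> omega

lemma sc_ne (s : ℕ → ℕ) {N y : ℕ} (h : s y ≠ y) (h' : s y < N) : sc s N y ≠ sc s N (s y) := by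
  unfold sc
  rcases lt_or_gt_of_ne h with h1 | h1
  · rw [if_pos h1, colD_eq s h1]
    by_cases h2 : s (s y) < s y
    · rw [if_pos h2]
      cases colD s (s y) <;> simp
    · rw [if_neg h2]
      cases colD s (s y) <;> cases colU s N (s y) <;> simp
  · rw [if_neg (by omega), colU_eq s h1 h']
    by_cases h2 : s (s y) < s y
    · rw [if_pos h2]
      cases colU s N (s y) <;> cases colD s (s y) <;> simp
    · rw [if_neg h2]
      cases colU s N (s y) <;> simp

section Main

variable (e : ℕ → ℕ) (X : S) (K : ℕ → Finset ℕ → Prop) (V : Finset ℕ → ℕ → Prop)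

/-- `D` respects `a` on the subtree of `t` -/
def Resp (t : ℕ) (a : ℕ → Bool) (D : S) : Prop :=
  ∀ s, Sb e X t s → a s = false → ∀ E, K s E → ¬ ∀ x ∈ E, D x = true

/-- win -/
def WA (t : ℕ) (P : Finset ℕ) (a : ℕ → Bool) : Prop :=
  ∀ D : S, Resp e X K t a D → ∃ E v s, V E v ∧ e s ≤ v ∧ v < e (s + 1) ∧
    (∀ x ∈ E, ∀ y ∈ E, x ∉ P → y ∉ P → D x = true → D y = true → x = y) ∧ Sb e X t s ∧ a s = true

/-- win outside, in the class `i` -/
def CA (t : ℕ) (P : Finset ℕ) (cls : ℕ → ℕ) (i : ℕ) (a : ℕ → Bool) : Prop :=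
  ∀ D : S, Resp e X K t a D → ∃ E v s, V E v ∧ e s ≤ v ∧ v < e (s + 1) ∧
    (∀ x ∈ E, x ∉ P → D x = false) ∧ ¬ Sb e X t s ∧ cls s = i

/-- the claim at a node -/
def Cl (t : ℕ) (P : Finset ℕ) : Prop :=
  ∀ (r : ℕ) (cls : ℕ → ℕ), r ≤ 2 * e t + 1 → (∀ s, cls s < r) →
    (∃ a, WA e X K V t P a) ∨ (∃ i < r, ∃ a, CA e X K V t P cls i a)

variable {e X K V}

lemma triv (he : StrictMono e) (hV : ∀ E v, V E v → e 0 ≤ v) {t : ℕ} {P : Finset ℕ}
    (h : ∃ E v, V E v ∧ ∀ x ∈ E, x ∈ P) : Cl e X K V t P := by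
  intro r cls _ hcls
  obtain ⟨E, v, hEv, hE⟩ := h
  obtain ⟨s, hs1, hs2⟩ := idx_exists he (hV E v hEv)
  by_cases hs : Sb e X t s
  · left
    exact ⟨fun _ => true, fun D _ => ⟨E, v, s, hEv, hs1, hs2,
      fun x hx y hy hxP => absurd (hE x hx) hxP, hs, rfl⟩⟩
  · right
    exact ⟨cls s, hcls s, fun _ => true, fun D _ => ⟨E, v, s, hEv, hs1, hs2,
      fun x hx hxP => absurd (hE x hx) hxP, hs, rfl⟩⟩

open Classical in
lemma stepL (he : StrictMono e)
    (hK : ∀ t E, K t E → E.Nonempty ∧ ∀ x ∈ E, e t ≤ x ∧ x < e (t + 1) ∧ X x = true)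
    (hcol : ∀ t (c : ℕ → ℕ), (∀ x, c x < 2 * e t + 10) → ∃ i E, K t E ∧ ∀ x ∈ E, c x = i)
    {t : ℕ} {P : Finset ℕ}
    (h : ∀ y, e t ≤ y → y < e (t + 1) → X y = true → Cl e X K V (y + 1) (insert y P)) :
    Cl e X K V t P := by
  intro r cls hr hcls
  -- good children
  set good : ℕ → Prop := fun y => e t ≤ y ∧ y < e (t + 1) ∧ X y = true with hgood
  have htt : t ≤ e t := he.le_apply
  have hlt : e t < e (t + 1) := he (Nat.lt_succ_self t)
  set R : ℕ := r + 1 + (e (t + 1) - e t) with hR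
  set cls' : ℕ → ℕ := fun s => if s = t then r else
    if h : ∃ y, good y ∧ Sb e X (y + 1) s then r + 1 + (h.choose - e t) else cls s with hcls'
  have hc_t : cls' t = r := by simp [hcls']
  have hc_sib : ∀ y s, good y → Sb e X (y + 1) s → cls' s = r + 1 + (y - e t) := by
    intro y s hy hs
    have hne : s ≠ t := by
      rintro rfl
      exact not_Sb_self he hy.1 hs
    have hex : ∃ y, good y ∧ Sb e X (y + 1) s := ⟨y, hy, hs⟩
    simp only [hcls']
    rw [if_neg hne, dif_pos hex]
    have := hex.choose_spec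
    rw [Sb.disj he this.1.1 this.1.2.1 hy.1 hy.2.1 this.2 hs]
  have hc_out : ∀ s, ¬ Sb e X t s → cls' s = cls s := by
    intro s hs
    have hne : s ≠ t := by
      rintro rfl
      exact hs Sb.refl
    have hex : ¬ ∃ y, good y ∧ Sb e X (y + 1) s := by
      rintro ⟨y, hy, hys⟩
      exact hs (Sb.child hy.1 hy.2.1 hy.2.2 hys)
    simp only [hcls']
    rw [if_neg hne, dif_neg hex]
  have hc_cases : ∀ s, (s = t ∧ cls' s = r) ∨ (∃ y, good y ∧ Sb e X (y + 1) s ∧
      cls' s = r + 1 + (y - e t)) ∨ (¬ Sb e X t s ∧ cls' s = cls s) := by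
    intro s
    by_cases hs : Sb e X t s
    · rcases hs.cases' with rfl | ⟨y, y1, y2, y3, y4⟩
      · exact Or.inl ⟨rfl, hc_t⟩
      · exact Or.inr (Or.inl ⟨y, ⟨y1, y2, y3⟩, y4, hc_sib y s ⟨y1, y2, y3⟩ y4⟩)
    · exact Or.inr (Or.inr ⟨hs, hc_out s hs⟩)
  have hc_lt : ∀ s, cls' s < R := by
    intro s
    rcases hc_cases s with ⟨_, h1⟩ | ⟨y, hy, _, h1⟩ | ⟨_, h1⟩
    · omega
    · have h2 := hy.1
      have h3 := hy.2.1
      omega
    · have := hcls s
      omega
  -- outcomes at the children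
  have hout : ∀ y, ∃ (ty : ℕ) (a : ℕ → Bool), ty ≤ R ∧ (good y →
      (ty = R → WA e X K V (y + 1) (insert y P) a) ∧
      (ty < R → CA e X K V (y + 1) (insert y P) cls' ty a)) := by
    intro y
    by_cases hy : good y
    · have hey : e (t + 1) ≤ e (y + 1) := he.monotone (by have := hy.1; omega)
      rcases h y hy.1 hy.2.1 hy.2.2 R cls' (by omega) hc_lt with ⟨a, ha⟩ | ⟨i, hi, a, ha⟩
      · exact ⟨R, a, le_rfl, fun _ => ⟨fun _ => ha, fun h => absurd h (lt_irrefl _)⟩⟩
      · exact ⟨i, a, hi.le, fun _ => ⟨fun h => absurd h hi.ne, fun _ => ha⟩⟩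
    · exact ⟨0, fun _ => true, Nat.zero_le _, fun h => absurd h hy⟩
  choose ty A hty hA using hout
  set sf : ℕ → ℕ := fun y => e t + (ty y - (r + 1)) with hsf
  set c : ℕ → ℕ := fun y => if ¬ good y then 0 else if ty y < r then ty y else
    if ty y = r then r else if ty y = R then r + 1 else r + 2 + sc sf (e (t + 1)) y with hc
  have hrpos : 0 < r := lt_of_le_of_lt (Nat.zero_le _) (hcls 0)
  have hc_bound : ∀ y, c y < 2 * e t + 10 := by
    intro y
    have := sc_lt sf (e (t + 1)) y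
    simp only [hc]
    split_ifs <;> omega
  obtain ⟨i0, E0, hKE, hE0⟩ := hcol t c hc_bound
  obtain ⟨⟨y0, hy0⟩, hE0J⟩ := hK t E0 hKE
  have hgE : ∀ y ∈ E0, good y := hE0J
  have hcE : ∀ y ∈ E0, c y = if ty y < r then ty y else
      if ty y = r then r else if ty y = R then r + 1 else r + 2 + sc sf (e (t + 1)) y := by
    intro y hy
    simp only [hc]
    rw [if_neg (not_not.mpr (hgE y hy))]
  have hsame : ∀ y ∈ E0, c y = c y0 := fun y hy => (hE0 y hy).trans (hE0 y0 hy0).symm
  -- the assignment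
  set aa : Bool → ℕ → Bool := fun b s => if s = t then b else
    if h : ∃ y, good y ∧ Sb e X (y + 1) s then
      (if h.choose ∈ E0 then A h.choose s else true) else true with haa
  have haa_t : ∀ b, aa b t = b := by intro b; simp [haa]
  have haa_s : ∀ b y s, good y → Sb e X (y + 1) s → aa b s = if y ∈ E0 then A y s else true := by
    intro b y s hy hs
    have hne : s ≠ t := by
      rintro rfl
      exact not_Sb_self he hy.1 hs
    have hex : ∃ y, good y ∧ Sb e X (y + 1) s := ⟨y, hy, hs⟩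
    simp only [haa]
    rw [if_neg hne, dif_pos hex]
    have := hex.choose_spec
    rw [Sb.disj he this.1.1 this.1.2.1 hy.1 hy.2.1 this.2 hs]
  have hresp : ∀ b D, Resp e X K t (aa b) D → ∀ y ∈ E0, Resp e X K (y + 1) (A y) D := by
    intro b D hD y hy s hs has E hE
    have hg := hgE y hy
    apply hD s (Sb.child hg.1 hg.2.1 hg.2.2 hs) _ E hE
    rw [haa_s b y s hg hs, if_pos hy]
    exact has
  have hmiss : ∀ D, Resp e X K t (aa false) D → ∃ y ∈ E0, D y = false := by
    intro D hD
    have := hD t Sb.refl (haa_t false) E0 hKE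
    push Not at this
    obtain ⟨y, hy, hyD⟩ := this
    exact ⟨y, hy, by simpa using hyD⟩
  by_cases ca : ty y0 < r
  · -- class `ty y0`
    right
    refine ⟨ty y0, ca, aa false, ?_⟩
    intro D hD
    obtain ⟨y, hy, hyD⟩ := hmiss D hD
    have hyty : ty y = ty y0 := by
      have h1 := hsame y hy
      rw [hcE y hy, hcE y0 hy0, if_pos ca] at h1
      split_ifs at h1 <;> omega
    obtain ⟨E, v, s, g1, g2, g3, g4, g5, g6⟩ := ((hA y (hgE y hy)).2 (by omega)) D
      (hresp false D hD y hy)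
    rcases hc_cases s with ⟨_, h1⟩ | ⟨y', _, _, h1⟩ | ⟨h0, h1⟩
    · omega
    · omega
    · refine ⟨E, v, s, g1, g2, g3, ?_, h0, by omega⟩
      intro x hx hxP
      by_cases hxy : x = y
      · rw [hxy]; exact hyD
      · exact g4 x hx (by simp [hxy, hxP])
  by_cases cb : ty y0 = r
  · left
    refine ⟨aa true, ?_⟩
    intro D hD
    obtain ⟨E, v, s, g1, g2, g3, g4, g5, g6⟩ := ((hA y0 (hgE y0 hy0)).2 (by omega)) D
      (hresp true D hD y0 hy0)
    rcases hc_cases s with ⟨h0, h1⟩ | ⟨y', _, _, h1⟩ | ⟨h0, h1⟩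
    · subst h0
      refine ⟨E, v, s, g1, g2, g3, ?_, Sb.refl, haa_t true⟩
      intro x hx x' hx' hxP hxP' hDx hDx'
      have e1 : x = y0 := by
        by_contra hne
        have := g4 x hx (by simp [hne, hxP])
        rw [this] at hDx
        exact Bool.noConfusion hDx
      have e2 : x' = y0 := by
        by_contra hne
        have := g4 x' hx' (by simp [hne, hxP'])
        rw [this] at hDx'
        exact Bool.noConfusion hDx'
      rw [e1, e2]
    · omega
    · have := hcls s
      omega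
  by_cases cc : ty y0 = R
  · left
    refine ⟨aa false, ?_⟩
    intro D hD
    obtain ⟨y, hy, hyD⟩ := hmiss D hD
    have hyty : ty y = R := by
      have h1 := hsame y hy
      rw [hcE y hy, hcE y0 hy0, if_neg ca, if_neg cb, if_pos cc] at h1
      split_ifs at h1 <;> omega
    obtain ⟨E, v, s, g1, g2, g3, g4, g5, g6⟩ := ((hA y (hgE y hy)).1 hyty) D
      (hresp false D hD y hy)
    have hg := hgE y hy
    refine ⟨E, v, s, g1, g2, g3, ?_, Sb.child hg.1 hg.2.1 hg.2.2 g5, ?_⟩
    · intro x hx x' hx' hxP hxP' hDx hDx'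
      have n1 : x ≠ y := by
        rintro rfl
        rw [hyD] at hDx
        exact Bool.noConfusion hDx
      have n2 : x' ≠ y := by
        rintro rfl
        rw [hyD] at hDx'
        exact Bool.noConfusion hDx'
      exact g4 x hx x' hx' (by simp [n1, hxP]) (by simp [n2, hxP']) hDx hDx'
    · rw [haa_s false y s hg g5, if_pos hy]
      exact g6
  · -- sibling
    left
    refine ⟨aa false, ?_⟩
    intro D hD
    obtain ⟨y, hy, hyD⟩ := hmiss D hD
    have hsib : ∀ z ∈ E0, ¬ ty z < r ∧ ty z ≠ r ∧ ty z ≠ R := by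
      intro z hz
      have h1 := hsame z hz
      rw [hcE z hz, hcE y0 hy0, if_neg ca, if_neg cb, if_neg cc] at h1
      split_ifs at h1 with k1 k2 k3
      · omega
      · omega
      · omega
      · exact ⟨k1, k2, k3⟩
    have hys := hsib y hy
    have hyR := hty y
    obtain ⟨E, v, s, g1, g2, g3, g4, g5, g6⟩ := ((hA y (hgE y hy)).2 (by omega)) D
      (hresp false D hD y hy)
    rcases hc_cases s with ⟨h0, h1⟩ | ⟨y', hy', hys', h1⟩ | ⟨h0, h1⟩
    · omega
    · have hy1 := hy'.1
      have hsfy : sf y = y' := by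
        simp only [hsf]
        omega
      have hne : y' ≠ y := by
        rintro rfl
        exact g5 hys'
      have hnot : y' ∉ E0 := by
        intro hmem
        have h2 : c y = c y' := (hsame y hy).trans (hsame y' hmem).symm
        have hs' := hsib y' hmem
        rw [hcE y hy, hcE y' hmem, if_neg hys.1, if_neg hys.2.1, if_neg hys.2.2,
          if_neg hs'.1, if_neg hs'.2.1, if_neg hs'.2.2] at h2
        have h3 : sc sf (e (t + 1)) y = sc sf (e (t + 1)) (sf y) := by
          rw [hsfy]; omega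
        exact sc_ne sf (by rw [hsfy]; exact hne) (by rw [hsfy]; exact hy'.2.1) h3
      refine ⟨E, v, s, g1, g2, g3, ?_, Sb.child hy'.1 hy'.2.1 hy'.2.2 hys', ?_⟩
      · intro x hx x' hx' hxP hxP' hDx hDx'
        exfalso
        by_cases hxy : x = y
        · rw [hxy, hyD] at hDx
          exact Bool.noConfusion hDx
        · have := g4 x hx (by simp [hxy, hxP])
          rw [this] at hDx
          exact Bool.noConfusion hDx
      · rw [haa_s false y' s hy' hys', if_neg hnot]
    · have := hcls s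
      omega

end Main

theorem t : TaskL := by
  intro e X K V he hK hcol hV hpath
  have hroot : Cl e X K V 0 ∅ := by
    by_contra hcon
    have hnext : ∀ p : {p : ℕ × Finset ℕ // ¬ Cl e X K V p.1 p.2}, ∃ y, (e p.1.1 ≤ y ∧
        y < e (p.1.1 + 1) ∧ X y = true) ∧ ¬ Cl e X K V (y + 1) (insert y p.1.2) := by
      intro p
      by_contra h
      push Not at h
      exact p.2 (stepL he hK hcol (fun y h1 h2 h3 => h y ⟨h1, h2, h3⟩))
    choose nx hnx1 hnx2 using hnext
    let st : ℕ → {p : ℕ × Finset ℕ // ¬ Cl e X K V p.1 p.2} := fun n =>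
      Nat.rec ⟨(0, ∅), hcon⟩ (fun _ p => ⟨(nx p + 1, insert (nx p) p.1.2), hnx2 p⟩) n
    let y : ℕ → ℕ := fun n => nx (st n)
    have hst : ∀ n, st (n + 1) = ⟨(nx (st n) + 1, insert (nx (st n)) (st n).1.2), hnx2 (st n)⟩ :=
      fun n => rfl
    have hmem : ∀ m n, n < m → y n ∈ (st m).1.2 := by
      intro m
      induction m with
      | zero => intro n hn; omega
      | succ m ih =>
        intro n hn
        rw [hst m]
        show y n ∈ insert (nx (st m)) (st m).1.2
        rcases Nat.lt_succ_iff_lt_or_eq.mp hn with h | h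
        · exact Finset.mem_insert_of_mem (ih n h)
        · subst h
          exact Finset.mem_insert_self _ _
    obtain ⟨E, v, hEv, hE⟩ := hpath y
      (by
        have := hnx1 (st 0)
        exact ⟨this.1, this.2.1⟩)
      (by
        intro n
        have := hnx1 (st (n + 1))
        exact ⟨this.1, this.2.1⟩)
      (by
        intro n
        exact (hnx1 (st n)).2.2)
    have hfin : ∃ m, ∀ x ∈ E, ∃ n < m, x = y n := by
      clear hEv
      induction E using Finset.induction_on with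
      | empty => exact ⟨0, by simp⟩
      | insert x E _ ih =>
        obtain ⟨m, hm⟩ := ih (fun x hx => hE x (Finset.mem_insert_of_mem hx))
        obtain ⟨n, hn⟩ := hE x (Finset.mem_insert_self _ _)
        refine ⟨max m (n + 1), ?_⟩
        intro z hz
        rcases Finset.mem_insert.mp hz with rfl | hz
        · exact ⟨n, by omega, hn⟩
        · obtain ⟨k, hk, hk'⟩ := hm z hz
          exact ⟨k, by omega, hk'⟩
    obtain ⟨m, hm⟩ := hfin
    apply (st m).2
    apply triv he hV
    refine ⟨E, v, hEv, ?_⟩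
    intro x hx
    obtain ⟨n, hn, rfl⟩ := hm x hx
    exact hmem m n hn
  have h0 := hroot 1 (fun _ => 0) (by omega) (fun _ => Nat.zero_lt_one)
  classical
  rcases h0 with ⟨a, ha⟩ | ⟨i, _, a, ha⟩
  · refine ⟨a, fun D => ?_⟩
    by_cases hD : Resp e X K 0 a D
    · right
      obtain ⟨E, v, s, g1, g2, g3, g4, _, g6⟩ := ha D hD
      exact ⟨E, v, s, g1, fun x hx y hy => g4 x hx y hy (by simp) (by simp), g2, g3, g6⟩
    · left
      unfold Resp at hD
      push Not at hD
      obtain ⟨s, _, hs, E, hE, hED⟩ := hD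
      exact ⟨s, E, hE, hED, hs⟩
  · refine ⟨fun s => if Sb e X 0 s then a s else true, fun D => ?_⟩
    by_cases hD : Resp e X K 0 a D
    · right
      obtain ⟨E, v, s, g1, g2, g3, g4, g5, _⟩ := ha D hD
      refine ⟨E, v, s, g1, ?_, g2, g3, by simp [g5]⟩
      intro x hx y hy hDx
      have := g4 x hx (by simp)
      rw [this] at hDx
      exact Bool.noConfusion hDx
    · left
      unfold Resp at hD
      push Not at hD
      obtain ⟨s, hs0, hs, E, hE, hED⟩ := hD
      exact ⟨s, E, hE, hED, by simp [hs0, hs]⟩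

end Pool.Agent.H904R6.CR.L
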