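import Mathlib
import Pool.Agent.H904R6.CR.Stmts

/-!
# TaskW: basis theorem for closed classes
-/

set_option autoImplicit false

namespace Pool.Agent.H904R6.CR.W

open Pool.Agent.H904R6.CR

theorem ag_rfl (k : ℕ) (Z : Om) : ag k Z Z :=
  ⟨fun _ _ _ _ => rfl, fun _ _ _ _ => rfl, fun _ _ => rfl, fun _ _ => rfl⟩

theorem ag_wC (k : ℕ) (Z : Om) (C D : Cs) (h : agA k C D) : ag k (Z.wC C) (Z.wC D) :=
  ⟨fun _ _ _ _ => rfl, fun _ _ _ _ => rfl, fun _ _ => rfl, h⟩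

theorem isClopen_of_dep {P : Cs → Prop} (n : ℕ) (h : ∀ C D, agA n C D → P C → P D) :
    IsClopen {C : Cs | P C} := by
  have hopen : ∀ Q : Cs → Prop, (∀ C D, agA n C D → Q C → Q D) → IsOpen {C : Cs | Q C} := by
    intro Q hQ
    rw [isOpen_iff_forall_mem_open]
    intro C hC
    refine ⟨⋂ i ∈ Finset.range n, (fun D : Cs => D i) ⁻¹' {C i}, ?_, ?_, ?_⟩
    · intro D hD
      simp only [Set.mem_iInter, Finset.mem_range, Set.mem_preimage, Set.mem_singleton_iff] at hD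
      exact hQ C D (fun i hi => (hD i hi).symm) hC
    · apply isOpen_biInter_finset
      intro i _
      exact (isOpen_discrete _).preimage (continuous_apply i)
    · simp
  refine ⟨?_, hopen P h⟩
  rw [← isOpen_compl_iff]
  exact hopen (fun C => ¬ P C) (fun C D hCD hC hD => hC (h D C (fun i hi => (hCD i hi).symm) hD))

theorem fan (t : ℕ → Set Cs) (hc : ∀ k, IsClosed (t k)) (hm : ∀ k, t (k + 1) ⊆ t k)
    (hn : ∀ k, (t k).Nonempty) : ∃ C, ∀ k, C ∈ t k := by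
  obtain ⟨C, hC⟩ := IsCompact.nonempty_iInter_of_sequence_nonempty_isCompact_isClosed t hm hn
    ((hc 0).isCompact) hc
  exact ⟨C, fun k => Set.mem_iInter.1 hC k⟩

theorem clopen_o {O : Obj} (hO : O.Good) (k : ℕ) (Z : Om) : IsClopen {C : Cs | O.o k C Z} :=
  isClopen_of_dep k fun _ _ h => hO.ho _ _ _ _ _ (ag_rfl _ _) h

theorem clopen_bd {T : Obj} (hT : T.Good) (m k : ℕ) (Z : Om) :
    IsClopen {C : Cs | T.bd m k (Z.wC C)} :=
  isClopen_of_dep k fun _ _ h => hT.hbd _ _ _ _ (ag_wC _ _ _ _ h)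

theorem clopen_q {T : Obj} (hT : T.Good) (m b k : ℕ) (α : S) (Z : Om) :
    IsClopen {C : Cs | T.q m b k α (Z.wC C)} :=
  isClopen_of_dep k fun _ _ h => hT.hq _ _ _ _ _ _ _ (ag_wC _ _ _ _ h) (fun _ _ _ => rfl)

theorem clopen_fst {T : Obj} (hT : T.Good) (m b : ℕ) (Z : Om) :
    IsClopen {C : Cs | fst T m b (Z.wC C)} := by
  refine isClopen_of_dep b ?_
  rintro C D h ⟨h1, h2⟩
  refine ⟨hT.hbd _ _ _ _ (ag_wC _ _ _ _ h) h1, fun j hj h3 => h2 j hj ?_⟩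
  exact hT.hbd _ _ _ _ (ag_wC _ _ _ _ (fun n hn => (h n (by omega)).symm)) h3

theorem closed_cls {O : Obj} (hO : O.Good) (Z : Om) : IsClosed {C : Cs | ∀ k, ¬ O.o k C Z} := by
  have : {C : Cs | ∀ k, ¬ O.o k C Z} = ⋂ k, {C : Cs | O.o k C Z}ᶜ := by
    ext C; simp
  rw [this]
  exact isClosed_iInter fun k => (clopen_o hO k Z).compl.isClosed

theorem fst_unique {T : Obj} {m j j' : ℕ} {Z : Om} (h : fst T m j Z) (h' : fst T m j' Z) :
    j = j' := by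
  rcases lt_trichotomy j j' with h1 | h1 | h1
  · exact absurd h.1 (h'.2 j h1)
  · exact h1
  · exact absurd h'.1 (h.2 j' h1)

theorem exists_fst {T : Obj} {m k : ℕ} {Z : Om} (h : T.bd m k Z) : ∃ j ≤ k, fst T m j Z := by
  classical
  have hex : ∃ k, T.bd m k Z := ⟨k, h⟩
  exact ⟨Nat.find hex, Nat.find_min' hex h, Nat.find_spec hex, fun j hj => Nat.find_min hex hj⟩

theorem uniform_q {T : Obj} (hT : T.Good) {m b : ℕ} {W : Om} (h : ∀ α, ∃ k, T.q m b k α W) :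
    ∃ K, ∀ α, T.q m b K α W := by
  choose f hf using (fun a : Finset ℕ => h (fun n => decide (n ∈ a)))
  refine ⟨(Finset.range b).powerset.sup f, fun α => ?_⟩
  have hmem : (Finset.range b).filter (fun n => α n = true) ∈ (Finset.range b).powerset :=
    Finset.mem_powerset.2 (Finset.filter_subset _ _)
  have h1 := hT.hqm _ _ _ _ _ _ (Finset.le_sup (f := f) hmem) (hf _)
  refine hT.hq _ _ _ _ _ _ _ (ag_rfl _ _) ?_ h1
  intro n _ hn
  simp only [Finset.mem_filter, Finset.mem_range, hn, true_and, Bool.decide_eq_true]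

theorem key {Bs : Set Fn} {Fm : Set Obj} (hF : Fam Bs Fm) (A : S) (Z : Om)
    (hS : ∀ T ∈ Fm, SHT A T Z) (O T : Obj) (hO : O ∈ Fm) (hT : T ∈ Fm)
    (hne : ∃ C, ∀ k, ¬ O.o k C Z) :
    ∃ O' ∈ Fm, (∃ C, ∀ k, ¬ O'.o k C Z) ∧
      (∀ C, (∀ k, ¬ O'.o k C Z) → (∀ k, ¬ O.o k C Z) ∧ SHT A T (Z.wC C)) := by
  have gO := hF.good O hO
  have gT := hF.good T hT
  by_cases c1 : ∃ m C, (∀ k, ¬ O.o k C Z) ∧ ∀ k, ¬ T.bd m k (Z.wC C)
  · obtain ⟨m, C0, h1, h2⟩ := c1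
    refine ⟨op3a m O T, hF.c3a m O hO T hT, ⟨C0, ?_⟩, ?_⟩
    · rintro k (h | ⟨j, -, h⟩)
      · exact h1 k h
      · exact h2 j h
    · intro C hC
      refine ⟨fun k hk => hC k (Or.inl hk), ?_⟩
      intro h
      obtain ⟨b, hb⟩ := h m
      exact absurd (Or.inr ⟨b, le_rfl, hb⟩) (hC b)
  by_cases c2 : ∃ m b C, (∀ k, ¬ O.o k C Z) ∧ fst T m b (Z.wC C) ∧
      ∀ α, ∃ k, T.q m b k α (Z.wC C)
  · obtain ⟨m, b, C0, h1, h2, h3⟩ := c2
    obtain ⟨K, hK⟩ := uniform_q gT h3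
    refine ⟨op3b m b K O T, hF.c3b m b K O hO T hT, ⟨C0, ?_⟩, ?_⟩
    · rintro k (h | ⟨-, -, h⟩)
      · exact h1 k h
      · exact h ⟨h2, hK⟩
    · intro C hC
      refine ⟨fun k hk => hC k (Or.inl hk), ?_⟩
      intro _ h
      have h4 : fst T m b (Z.wC C) ∧ ∀ α, T.q m b K α (Z.wC C) := by
        by_contra hcon
        exact hC (max b K) (Or.inr ⟨le_max_left _ _, le_max_right _ _, hcon⟩)
      obtain ⟨α, hα⟩ := h m b h4.1
      exact absurd (h4.2 α) (hα K)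
  push Not at c1 c2
  obtain ⟨C0, hC0⟩ := hne
  have hW := hS (opW O T) (hF.cW O hO T hT)
  have hyp1 : ∀ m, ∃ b, (opW O T).bd m b Z := by
    intro m
    by_contra hcon
    push Not at hcon
    have hcon' : ∀ k, ∃ C, ¬ O.o k C Z ∧ ∀ j ≤ k, ¬ T.bd m j (Z.wC C) := by
      intro k
      by_contra h
      push Not at h
      apply hcon k
      intro C
      by_cases hc : O.o k C Z
      · exact Or.inl hc
      · obtain ⟨j, hj, hj'⟩ := h C hc
        exact Or.inr ⟨j, hj, hj'⟩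
    obtain ⟨C, hC⟩ := fan (fun k => {C | ¬ O.o k C Z ∧ ∀ j ≤ k, ¬ T.bd m j (Z.wC C)})
      (by
        intro k
        have : {C : Cs | ¬ O.o k C Z ∧ ∀ j ≤ k, ¬ T.bd m j (Z.wC C)} =
            {C : Cs | O.o k C Z}ᶜ ∩ ⋂ j, ⋂ (_ : j ≤ k), {C : Cs | T.bd m j (Z.wC C)}ᶜ := by
          ext C; simp
        rw [this]
        exact (clopen_o gO k Z).compl.isClosed.inter
          (isClosed_iInter fun j => isClosed_iInter fun _ => (clopen_bd gT m j Z).compl.isClosed))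
      (by
        rintro k C ⟨h1, h2⟩
        exact ⟨fun h => h1 (gO.hom _ _ _ _ (Nat.le_succ k) h), fun j hj => h2 j (by omega)⟩)
      hcon'
    obtain ⟨k, hk⟩ := c1 m C (fun k => (hC k).1)
    exact (hC k).2 k le_rfl hk
  have hyp2 : ∀ m b, fst (opW O T) m b Z → ∃ α, ∀ k, ¬ (opW O T).q m b k α Z := by
    intro m b hb
    rcases hb.1 C0 with h | ⟨j, hj, hj'⟩
    · exact absurd h (hC0 b)
    · obtain ⟨j0, hj0, hf⟩ := exists_fst hj'
      obtain ⟨α, hα⟩ := c2 m j0 C0 hC0 hf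
      refine ⟨α, ?_⟩
      rintro k ⟨-, hk⟩
      rcases hk C0 with h | ⟨j1, -, hf1, hq⟩
      · exact hC0 k h
      · rw [fst_unique hf1 hf] at hq
        exact hα k hq
  obtain ⟨m, b, hb, hA⟩ := hW hyp1 hyp2
  -- the sets `E j k`
  have hE : ∀ k, b ≤ k → ∃ j ≤ b, ∃ C, ¬ O.o k C Z ∧ fst T m j (Z.wC C) ∧
      ¬ T.q m j k A (Z.wC C) := by
    intro k hk
    have h1 : ¬ ∀ C, O.o k C Z ∨ ∃ j ≤ b, fst T m j (Z.wC C) ∧ T.q m j k A (Z.wC C) :=
      fun h => hA k ⟨hk, h⟩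
    push Not at h1
    obtain ⟨C, hC1, hC2⟩ := h1
    rcases hb.1 C with h | ⟨j, hj, hj'⟩
    · exact absurd (gO.hom _ _ _ _ hk h) hC1
    · obtain ⟨j0, hj0, hf⟩ := exists_fst hj'
      exact ⟨j0, hj0.trans hj, C, hC1, hf, hC2 j0 (hj0.trans hj) hf⟩
  have hEj : ∃ j, ∀ k, ∃ C, ¬ O.o k C Z ∧ fst T m j (Z.wC C) ∧ ¬ T.q m j k A (Z.wC C) := by
    by_contra hcon
    push Not at hcon
    choose f hf using hcon
    obtain ⟨j, hj, C, hC1, hC2, hC3⟩ := hE (max b ((Finset.range (b + 1)).sup f)) (le_max_left _ _)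
    have hle : f j ≤ max b ((Finset.range (b + 1)).sup f) :=
      (Finset.le_sup (f := f) (Finset.mem_range.2 (by omega))).trans (le_max_right _ _)
    have h1 : ¬ O.o (f j) C Z := fun h => hC1 (gO.hom _ _ _ _ hle h)
    exact hC3 (gT.hqm _ _ _ _ _ _ hle (hf j C h1 hC2))
  obtain ⟨j, hj⟩ := hEj
  set a : Finset ℕ := (Finset.range j).filter (fun n => A n = true) with ha
  have hqa : ∀ k C, T.q m j k (fun n => decide (n ∈ a)) (Z.wC C) → T.q m j k A (Z.wC C) := by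
    intro k C h
    refine gT.hq _ _ _ _ _ _ _ (ag_rfl _ _) ?_ h
    intro n _ hn
    simp only [ha, Finset.mem_filter, Finset.mem_range, hn, true_and, Bool.decide_eq_true]
  have hqa' : ∀ k C, T.q m j k A (Z.wC C) → T.q m j k (fun n => decide (n ∈ a)) (Z.wC C) := by
    intro k C h
    refine gT.hq _ _ _ _ _ _ _ (ag_rfl _ _) ?_ h
    intro n _ hn
    simp only [ha, Finset.mem_filter, Finset.mem_range, hn, true_and, Bool.decide_eq_true]
  obtain ⟨C, hC⟩ := fan (fun k => {C | ¬ O.o k C Z ∧ fst T m j (Z.wC C) ∧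
      ¬ T.q m j k A (Z.wC C)})
    (by
      intro k
      exact (clopen_o gO k Z).compl.isClosed.inter
        ((clopen_fst gT m j Z).isClosed.inter (clopen_q gT m j k A Z).compl.isClosed))
    (by
      rintro k C ⟨h1, h2, h3⟩
      exact ⟨fun h => h1 (gO.hom _ _ _ _ (Nat.le_succ k) h), h2,
        fun h => h3 (gT.hqm _ _ _ _ _ _ (Nat.le_succ k) h)⟩)
    hj
  refine ⟨op3c m j a O T, hF.c3c m j a O hO T hT, ⟨C, ?_⟩, ?_⟩
  · rintro k (h | ⟨-, h⟩ | h)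
    · exact (hC k).1 h
    · exact h (hC k).2.1
    · exact (hC k).2.2 (hqa k C h)
  · intro D hD
    refine ⟨fun k hk => hD k (Or.inl hk), ?_⟩
    intro _ _
    refine ⟨m, j, ?_, ?_⟩
    · by_contra h
      exact hD j (Or.inr (Or.inl ⟨le_rfl, h⟩))
    · intro k hk
      exact hD k (Or.inr (Or.inr (hqa' k D hk)))

theorem t : TaskW := by
  intro Bs Fm hF A Z O hO hne hS
  obtain ⟨e, he⟩ := hF.cnt.exists_eq_range ⟨O, hO⟩
  have heF : ∀ n, e n ∈ Fm := fun n => by rw [he]; exact ⟨n, rfl⟩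
  -- the sequence of objects
  let St := {O : Obj // O ∈ Fm ∧ ∃ C, ∀ k, ¬ O.o k C Z}
  have step : ∀ (n : ℕ) (s : St), ∃ s' : St, ∀ C, (∀ k, ¬ s'.1.o k C Z) →
      (∀ k, ¬ s.1.o k C Z) ∧ SHT A (e n) (Z.wC C) := by
    intro n s
    obtain ⟨O', h1, h2, h3⟩ := key hF A Z hS s.1 (e n) s.2.1 (heF n) s.2.2
    exact ⟨⟨O', h1, h2⟩, h3⟩
  choose g hg using step
  let sq : ℕ → St := fun n => Nat.rec ⟨O, hO, hne⟩ (fun n s => g n s) n
  have hsq : ∀ n, sq (n + 1) = g n (sq n) := fun n => rfl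
  obtain ⟨C, hC⟩ := fan (fun n => {C | ∀ k, ¬ (sq n).1.o k C Z})
    (fun n => closed_cls (hF.good _ (sq n).2.1) Z)
    (fun n C hC => (hg n (sq n) C (by rw [← hsq]; exact hC)).1)
    (fun n => (sq n).2.2)
  refine ⟨C, hC 0, ?_⟩
  intro T hT
  rw [he] at hT
  obtain ⟨n, rfl⟩ := hT
  exact (hg n (sq n) C (by rw [← hsq]; exact hC (n + 1))).2

end Pool.Agent.H904R6.CR.W
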