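import Pool.Agent.H904R6.CR.Neg
import Pool.Agent.H904R6.CR.Good
import Pool.Agent.H904R6.CR.GoodA
import Pool.Agent.H904R6.CR.GoodB
import Pool.Agent.H257R3.CRGoodC
import Pool.Agent.H904R6.CR.Fam
import Pool.Agent.H904R6.CR.F
import Pool.Agent.H904R6.CR.W
import Pool.Agent.H856R3.RT.TaskA
import Pool.Agent.H797R4.TaskM
import Pool.Agent.H904R6.CR.L
import Pool.Agent.H904R6.CR.G

/-!
Assembly of the negative part.
-/

namespace Pool.Agent.H904R6.CR.Asm

open Pool.Agent.H904R6.CR.Real Pool.Agent.H904R6.CR.Neg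

theorem hm : Main := Pool.Agent.H904R6.CR.Final.main Pool.Agent.H904R6.CR.Good.t
    Pool.Agent.H904R6.CR.taskGoodA Pool.Agent.H904R6.CR.GoodB.t Pool.Agent.H257R3.CR.taskGoodC
    Pool.Agent.H904R6.CR.Fam.t Pool.Agent.H904R6.CR.F.taskF Pool.Agent.H904R6.CR.W.t
    Pool.Agent.H856R3.RT.taskA Pool.Agent.H904R6.CR.L.t Pool.Agent.H797R4.RT.taskM
    Pool.Agent.H904R6.CR.G.t

theorem hneg : ∀ π : List ℕ, Has120 π ∨ Has102 π → NotRed π := fun π h =>
    h.elim (neg120 hm π) (neg102 hm π)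

end Pool.Agent.H904R6.CR.Asm
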