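import Pool.Agent.H904R6.CR.Stmts
import Pool.Agent.Helper446.Oracle

/-!
Turing functionals and the functionals of `Stmts`; the assembly.
-/

set_option autoImplicit false

namespace Pool.Agent.H904R6.CR.Final

open Pool.Agent.H904R6.CR Pool.Agent.Helper446 Pool.Agent.Helper446.Defs
  Pool.Agent.Helper446.Oracle

/-- the set coding a colouring of pairs -/
def cod (f : Col) : Set ℕ := {n | ∃ x y, x < y ∧ n = Nat.pair x y ∧ f x y = true}

/-- the join of two sets -/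
def jn (A B : Set ℕ) : Set ℕ := {n | (n % 2 = 0 ∧ n / 2 ∈ A) ∨ (n % 2 = 1 ∧ n / 2 ∈ B)}

def st (G : S) : Set ℕ := {n | G n = true}

def Fun (R : ℕ → List ℕ × List ℕ → Prop) : Fn := fun v k G f =>
  ∃ c, R v c ∧ (∀ x ∈ c.1, x < k ∧ x ∈ jn (cod f) (st G)) ∧
    ∀ x ∈ c.2, x < k ∧ x ∉ jn (cod f) (st G)

theorem cod_ag {k : ℕ} {f g : Col} (h : agC k f g) {n : ℕ} (hn : n < k) :
    n ∈ cod f ↔ n ∈ cod g := by
  have key : ∀ {f g : Col}, agC k f g → n ∈ cod f → n ∈ cod g := by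
    rintro f g h ⟨x, y, hxy, rfl, h1⟩
    have hx := Nat.left_le_pair x y
    have hy := Nat.right_le_pair x y
    exact ⟨x, y, hxy, rfl, by rw [← h x (by omega) y (by omega)]; exact h1⟩
  exact ⟨key h, key fun x hx y hy => (h x hx y hy).symm⟩

theorem jn_ag {k : ℕ} {f g : Col} {G H : S} (h : agC k f g) (h2 : agS k G H) {n : ℕ} (hn : n < k) :
    n ∈ jn (cod f) (st G) ↔ n ∈ jn (cod g) (st H) := by
  have hn2 : n / 2 < k := by omega
  unfold jn
  simp only [Set.mem_setOf_eq]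
  rw [cod_ag h hn2]
  have : n / 2 ∈ st G ↔ n / 2 ∈ st H := by
    unfold st
    simp only [Set.mem_setOf_eq]
    rw [h2 _ hn2]
  rw [this]

theorem good_Fun (R : ℕ → List ℕ × List ℕ → Prop) : GoodFn (Fun R) where
  dep := by
    rintro v k G H f g h1 h2 ⟨c, hc, hp, hn⟩
    exact ⟨c, hc, fun x hx => ⟨(hp x hx).1, (jn_ag h2 h1 (hp x hx).1).1 (hp x hx).2⟩,
      fun x hx => ⟨(hn x hx).1, fun h => (hn x hx).2 ((jn_ag h2 h1 (hn x hx).1).2 h)⟩⟩
  mono := by
    rintro v k l G f hkl ⟨c, hc, hp, hn⟩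
    exact ⟨c, hc, fun x hx => ⟨(hp x hx).1.trans_le hkl, (hp x hx).2⟩,
      fun x hx => ⟨(hn x hx).1.trans_le hkl, (hn x hx).2⟩⟩

/-- the identity functional -/
def idF : Fn := fun v k G _ => v < k ∧ G v = true

theorem good_idF : GoodFn idF where
  dep := by
    rintro v k G H f g h1 h2 ⟨h3, h4⟩
    exact ⟨h3, by rw [← h1 v h3]; exact h4⟩
  mono := by
    rintro v k l G f hkl ⟨h3, h4⟩
    exact ⟨h3.trans_le hkl, h4⟩

theorem countable_re {α : Type} [Primcodable α] : {p : α → Prop | REPred p}.Countable := by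
  have h : {p : α → Prop | REPred p} ⊆ Set.range fun c : Nat.Partrec.Code =>
      fun a : α => (c.eval (Encodable.encode a)).Dom := by
    intro p hp
    obtain ⟨c, hc⟩ := Nat.Partrec.Code.exists_code.1 hp
    refine ⟨c, ?_⟩
    funext a
    simp only [hc]
    simp [Part.assert]
  exact (Set.countable_range _).mono h

def REs : Set (ℕ → List ℕ × List ℕ → Prop) :=
  {R | REPred fun x : ℕ × (List ℕ × List ℕ) => R x.1 x.2}

theorem countable_REs : REs.Countable := by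
  have h := (countable_re (α := ℕ × (List ℕ × List ℕ))).image
    fun (p : ℕ × (List ℕ × List ℕ) → Prop) (v : ℕ) (c : List ℕ × List ℕ) => p (v, c)
  refine h.mono ?_
  intro R hR
  exact ⟨fun x => R x.1 x.2, hR, rfl⟩

/-- the family of base functionals -/
def Bs : Set Fn := (Fun '' REs) ∪ {idF}

theorem Bs_countable : Bs.Countable := (countable_REs.image _).union (Set.countable_singleton _)

theorem Bs_good : ∀ Γ ∈ Bs, GoodFn Γ := by
  rintro Γ (⟨R, _, rfl⟩ | h)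
  · exact good_Fun R
  · rw [Set.mem_singleton_iff.1 h]
    exact good_idF

/-- `g` is computed from `f` by the two enumerations -/
def Rel (R1 R0 : ℕ → List ℕ × List ℕ → Prop) (f g : Col) : Prop :=
  (∀ x y, ¬ x < y → g x y = false) ∧
    ∀ n, (n ∈ cod g ↔ ∃ c, R1 n c ∧ Ok (cod f) c) ∧ (n ∉ cod g ↔ ∃ c, R0 n c ∧ Ok (cod f) c)

theorem Ok_ag {f f' : Col} {c : List ℕ × List ℕ} (h : Ok (cod f) c) :
    ∃ k, ∀ f', agC k f f' → Ok (cod f') c := by
  refine ⟨(c.1.sum + c.2.sum) + 1, fun f' hf => ⟨fun x hx => ?_, fun x hx h' => ?_⟩⟩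
  · have : x ≤ c.1.sum := List.single_le_sum (fun _ _ => Nat.zero_le _) x hx
    exact (cod_ag hf (by omega)).1 (h.1 x hx)
  · have : x ≤ c.2.sum := List.single_le_sum (fun _ _ => Nat.zero_le _) x hx
    exact h.2 x hx ((cod_ag hf (by omega)).2 h')

theorem agC_mono {k l : ℕ} {f g : Col} (h : k ≤ l) (h2 : agC l f g) : agC k f g :=
  fun x hx y hy => h2 x (by omega) y (by omega)

theorem Rel_cont (R1 R0 : ℕ → List ℕ × List ℕ → Prop) (f g : Col) (h : Rel R1 R0 f g) (j : ℕ) :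
    ∃ k, ∀ f' g', agC k f f' → Rel R1 R0 f' g' → agC j g g' := by
  classical
  have h1 : ∀ n, ∃ k, ∀ f' g', agC k f f' → Rel R1 R0 f' g' → (n ∈ cod g ↔ n ∈ cod g') := by
    intro n
    by_cases hn : n ∈ cod g
    · obtain ⟨c, hc, hok⟩ := (h.2 n).1.1 hn
      obtain ⟨k, hk⟩ := Ok_ag (f' := f) hok
      exact ⟨k, fun f' g' hf hg => ⟨fun _ => (hg.2 n).1.2 ⟨c, hc, hk f' hf⟩, fun _ => hn⟩⟩
    · obtain ⟨c, hc, hok⟩ := (h.2 n).2.1 hn
      obtain ⟨k, hk⟩ := Ok_ag (f' := f) hok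
      exact ⟨k, fun f' g' hf hg => ⟨fun h' => absurd h' hn,
        fun h' => absurd h' ((hg.2 n).2.2 ⟨c, hc, hk f' hf⟩)⟩⟩
  choose k hk using h1
  have hex : ∃ K, ∀ n, n < Nat.pair j j + 1 → k n ≤ K := by
    refine ⟨∑ n ∈ Finset.range (Nat.pair j j + 1), k n, fun n hn => ?_⟩
    exact Finset.single_le_sum (f := k) (fun _ _ => Nat.zero_le _) (Finset.mem_range.2 hn)
  obtain ⟨K, hK⟩ := hex
  refine ⟨K, fun f' g' hf hg x hx y hy => ?_⟩
  by_cases hxy : x < y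
  · have h2 : Nat.pair x y < Nat.pair j j := by
      have := Nat.pair_lt_pair_left y hx
      have := Nat.pair_lt_pair_right j hy
      omega
    have h3 := hk (Nat.pair x y) f' g' (agC_mono (hK _ (by omega)) hf) hg
    have h4 : ∀ g : Col, Nat.pair x y ∈ cod g ↔ g x y = true := by
      intro g
      constructor
      · rintro ⟨a, b, _, hab, h5⟩
        have := Nat.pair_eq_pair.1 hab
        rw [this.1, this.2]
        exact h5
      · intro h5
        exact ⟨x, y, hxy, rfl, h5⟩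
    rw [h4, h4] at h3
    rw [Bool.eq_iff_iff]
    exact h3
  · rw [h.1 x y hxy, hg.1 x y hxy]

/-- the main theorem, for colourings `ℕ → ℕ → Bool` -/
theorem main (hgood : TaskGood) (hA' : TaskGoodA) (hB' : TaskGoodB) (hC' : TaskGoodC)
    (hFam : TaskFam) (hF : TaskF) (hW : TaskW) (hA : TaskA) (hL : TaskL) (hM : TaskM)
    (hG : TaskG) :
    ∃ f : Col, (∀ x, ∃ c : Bool, ∃ n, ∀ y, n ≤ y → f x y = c) ∧ ∀ g : Col, (∀ x y, ¬ x < y → g x y = false) →
      TuringReducible (chi (cod g)) (chi (cod f)) →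
      ∃ G : Set ℕ, G.Infinite ∧
        (∀ x y z, x < y → y < z → x ∈ G → y ∈ G → z ∈ G →
          ¬ (g x y = false ∧ g x z = true ∧ g y z = true)) ∧
        ∀ H : Set ℕ, H.Infinite → (∃ i : Bool, ∀ x ∈ H, ∀ y ∈ H, x < y → f x y = i) →
          ¬ TuringReducible (chi H) (chi (jn (cod f) G)) := by
  classical
  obtain ⟨Fm, hFm⟩ := hFam hgood hA' hB' hC' Bs Bs_countable Bs_good
  have : Countable REs := countable_REs.to_subtype
  have : Countable Fm := hFm.cnt.to_subtype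
  obtain ⟨f, A, hlim, hf⟩ := hF (REs × REs × Fm) (fun i f g => Rel i.1.1 i.2.1.1 f g)
    (fun i => i.2.2.1) (fun i => hFm.good _ i.2.2.2) (fun i f g h j => Rel_cont _ _ f g h j)
  refine ⟨f, fun x => ⟨A x, hlim x⟩, fun g hg hgf => ?_⟩
  obtain ⟨⟨R1, hR1, h1⟩, ⟨R0, hR0, h0⟩⟩ := turingReducible_iff.1 hgf
  have hrel : Rel R1 R0 f g := ⟨hg, fun n => ⟨h1 n, h0 n⟩⟩
  have hal : Al Fm A f g (fun _ => true) := by
    refine ⟨?_, fun T hT => hf (⟨R1, hR1⟩, ⟨R0, hR0⟩, ⟨T, hT⟩) g hrel⟩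
    simpa using Set.infinite_univ
  obtain ⟨G, hGi, hGv, hGr⟩ := hG hM hW hA hL Bs Fm Bs_countable Bs_good
    (Or.inr rfl) hFm A f g hal
  refine ⟨st G, hGi, fun x y z h1 h2 h3 h4 h5 => hGv x y z h1 h2 h3 h4 h5, ?_⟩
  rintro H hH ⟨i, hi⟩ hred
  -- all elements of H have limit i
  have hAi : ∀ v ∈ H, A v = i := by
    intro v hv
    obtain ⟨n, hn⟩ := hlim v
    obtain ⟨y, hy, hyn⟩ := hH.exists_gt (max n v)
    rw [← hn y (by omega)]
    exact hi v hv y hy (by omega)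
  obtain ⟨⟨R, hR, hRH⟩, _⟩ := turingReducible_iff.1 hred
  have hst : ∀ v, v ∈ H ↔ ∃ k, Fun R v k G f := by
    intro v
    refine Iff.trans (hRH v) ?_
    constructor
    · rintro ⟨c, hc, hok⟩
      refine ⟨(c.1.sum + c.2.sum) + 1, c, hc, fun x hx => ⟨?_, hok.1 x hx⟩,
        fun x hx => ⟨?_, hok.2 x hx⟩⟩
      · have : x ≤ c.1.sum := List.single_le_sum (fun _ _ => Nat.zero_le _) x hx
        omega
      · have : x ≤ c.2.sum := List.single_le_sum (fun _ _ => Nat.zero_le _) x hx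
        omega
    · rintro ⟨k, c, hc, hp, hn⟩
      exact ⟨c, hc, fun x hx => (hp x hx).2, fun x hx => (hn x hx).2⟩
  rcases hGr (Fun R) (Or.inl ⟨R, hR, rfl⟩) (!i) with ⟨v, k, hv, hvA⟩ | ⟨m, hm⟩
  · have := hAi v ((hst v).2 ⟨k, hv⟩)
    rw [this] at hvA
    cases i <;> simp at hvA
  · obtain ⟨y, hy, hym⟩ := hH.exists_gt m
    obtain ⟨k, hk⟩ := (hst y).1 hy
    have := hm y k hk
    omega

end Pool.Agent.H904R6.CR.Final
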