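import Pool.Agent.Helper446.Oracle

/-!
Definitions for the final statement (MP_cb9c95_lc): problems about colourings of pairs, patterns,
separable permutations, computable reducibility.
-/

set_option autoImplicit false

namespace Pool.Agent.H904R6.CR.Real

open Pool.Agent.Helper446.Defs

/-- colourings `f : [ℕ]^2 → 2` -/
abbrev Coloring := {p : ℕ × ℕ // p.1 < p.2} → Fin 2

/-- the set of natural numbers coding the colouring `f` (as an oracle) -/
def code (f : Coloring) : Set ℕ := {n | ∃ x y, ∃ h : x < y, n = Nat.pair x y ∧ f ⟨(x, y), h⟩ = 1}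

/-- the join `A ⊕ B` of two sets of natural numbers -/
def join (A B : Set ℕ) : Set ℕ := {n | (n % 2 = 0 ∧ n / 2 ∈ A) ∨ (n % 2 = 1 ∧ n / 2 ∈ B)}

/-- the solutions of the instance `f` of `RT^2_2` : infinite homogeneous sets -/
def RT22 (f : Coloring) (H : Set ℕ) : Prop :=
  H.Infinite ∧ ∃ i : Fin 2, ∀ x y, ∀ h : x < y, x ∈ H → y ∈ H → f ⟨(x, y), h⟩ = i

/-- the pattern `p_π` of a permutation `π` given by its value sequence -/
def pat (π : List ℕ) (i j : ℕ) : Fin 2 := if π.getD i 0 < π.getD j 0 then 0 else 1

/-- the solutions of the instance `f` of `RT^2_2(π)` : infinite sets `f`-avoiding `p_π` -/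
def RTp (π : List ℕ) (f : Coloring) (H : Set ℕ) : Prop :=
  H.Infinite ∧ ¬ ∃ x : ℕ → ℕ, (∀ i, i < π.length → x i ∈ H) ∧
    ∀ i j, i < j → j < π.length → ∃ h : x i < x j, f ⟨(x i, x j), h⟩ = pat π i j

/-- computable reducibility between problems whose instances are the colourings -/
def CRed (P Q : Coloring → Set ℕ → Prop) : Prop :=
  ∀ f : Coloring, ∃ g : Coloring, TuringReducible (chi (code g)) (chi (code f)) ∧
    ∀ G, Q g G → ∃ H, P f H ∧ TuringReducible (chi H) (chi (join (code f) G))

/-- separable permutations, as value sequences -/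
inductive Separable : List ℕ → Prop
  | one : Separable [0]
  | dsum {π σ : List ℕ} : Separable π → Separable σ → Separable (π ++ σ.map (· + π.length))
  | ssum {π σ : List ℕ} : Separable π → Separable σ → Separable (π.map (· + σ.length) ++ σ)

/-- `π` contains the permutation `120` -/
def Has120 (π : List ℕ) : Prop := ∃ i j k, i < j ∧ j < k ∧ k < π.length ∧
  π.getD k 0 < π.getD i 0 ∧ π.getD i 0 < π.getD j 0

/-- `π` contains the permutation `102` -/
def Has102 (π : List ℕ) : Prop := ∃ i j k, i < j ∧ j < k ∧ k < π.length ∧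
  π.getD j 0 < π.getD i 0 ∧ π.getD i 0 < π.getD k 0

/-- the positive part: permutations containing neither `120` nor `102` -/
def TaskPos : Prop := ∀ π : List ℕ, π.Nodup → ¬ Has120 π → ¬ Has102 π → CRed RT22 (RTp π)

end Pool.Agent.H904R6.CR.Real
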