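import Pool.Agent.H904R6.CR.Final
import Pool.Agent.H904R6.CR.Real

/-!
The negative part for the permutations containing 120 or 102.
-/

set_option autoImplicit false

namespace Pool.Agent.H904R6.CR.Neg

open Pool.Agent.H904R6.CR Pool.Agent.H904R6.CR.Final Pool.Agent.H904R6.CR.Real
  Pool.Agent.Helper446 Pool.Agent.Helper446.Defs Pool.Agent.Helper446.Oracle

/-- the conclusion of `Final.main` -/
def Main : Prop := ∃ f : Col, (∀ x, ∃ c : Bool, ∃ n, ∀ y, n ≤ y → f x y = c) ∧ ∀ g : Col, (∀ x y, ¬ x < y → g x y = false) →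
      TuringReducible (chi (cod g)) (chi (cod f)) →
      ∃ G : Set ℕ, G.Infinite ∧
        (∀ x y z, x < y → y < z → x ∈ G → y ∈ G → z ∈ G →
          ¬ (g x y = false ∧ g x z = true ∧ g y z = true)) ∧
        ∀ H : Set ℕ, H.Infinite → (∃ i : Bool, ∀ x ∈ H, ∀ y ∈ H, x < y → f x y = i) →
          ¬ TuringReducible (chi H) (chi (jn (cod f) G))

/-- the colouring given by a function -/
def toC (f : Col) : Coloring := fun p => if f p.1.1 p.1.2 = true then 1 else 0

theorem code_toC (f : Col) : code (toC f) = cod f := by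
  ext n
  constructor
  · rintro ⟨x, y, h, rfl, h1⟩
    refine ⟨x, y, h, rfl, ?_⟩
    unfold toC at h1
    by_contra h2
    rw [if_neg h2] at h1
    exact absurd h1 (by decide)
  · rintro ⟨x, y, h, rfl, h1⟩
    exact ⟨x, y, h, rfl, by unfold toC; rw [if_pos h1]⟩

/-- the function of a colouring, colour `c` becomes `true` -/
def frC (c : Fin 2) (g : Coloring) : Col := fun x y =>
  if h : x < y then decide (g ⟨(x, y), h⟩ = c) else false

theorem frC_eq (c : Fin 2) (g : Coloring) {x y : ℕ} (h : x < y) :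
    frC c g x y = decide (g ⟨(x, y), h⟩ = c) := by
  unfold frC
  rw [dif_pos h]

theorem frC_not (c : Fin 2) (g : Coloring) (x y : ℕ) (h : ¬ x < y) : frC c g x y = false := by
  unfold frC
  rw [dif_neg h]

theorem cod_frC (g : Coloring) : cod (frC 1 g) = code g := by
  ext n
  constructor
  · rintro ⟨x, y, h, rfl, h1⟩
    rw [frC_eq 1 g h] at h1
    exact ⟨x, y, h, rfl, of_decide_eq_true h1⟩
  · rintro ⟨x, y, h, rfl, h1⟩
    refine ⟨x, y, h, rfl, ?_⟩
    rw [frC_eq 1 g h]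
    exact decide_eq_true h1

theorem mem_cod_frC0 (g : Coloring) (n : ℕ) :
    n ∈ cod (frC 0 g) ↔ n.unpair.1 < n.unpair.2 ∧ n ∉ code g := by
  constructor
  · rintro ⟨x, y, h, rfl, h1⟩
    rw [frC_eq 0 g h] at h1
    refine ⟨by rw [Nat.unpair_pair]; exact h, ?_⟩
    rintro ⟨x', y', h', he, h2⟩
    obtain ⟨rfl, rfl⟩ := Nat.pair_eq_pair.1 he
    have := of_decide_eq_true h1
    rw [this] at h2
    exact absurd h2 (by decide)
  · rintro ⟨h, h1⟩
    refine ⟨n.unpair.1, n.unpair.2, h, (Nat.pair_unpair n).symm, ?_⟩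
    rw [frC_eq 0 g h]
    apply decide_eq_true
    by_contra h2
    refine h1 ⟨n.unpair.1, n.unpair.2, h, (Nat.pair_unpair n).symm, ?_⟩
    have : ∀ a : Fin 2, a ≠ 0 → a = 1 := by decide
    exact this _ h2

theorem red_frC0 {g : Coloring} {J : Set ℕ} (h : TuringReducible (chi (code g)) (chi J)) :
    TuringReducible (chi (cod (frC 0 g))) (chi J) := by
  obtain ⟨h1, h2⟩ := turingReducible_iff.1 h
  refine turingReducible_iff.2 ⟨?_, ?_⟩
  · have h3 : REIn J fun n : ℕ => n.unpair.1 < n.unpair.2 :=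
      REIn.of_re (RE.lt (by fun_prop) (by fun_prop))
    exact (REIn.and h3 h2).of_eq fun n => (mem_cod_frC0 g n).symm
  · have h3 : REIn J fun n : ℕ => n.unpair.2 < n.unpair.1 + 1 :=
      REIn.of_re (RE.lt (by fun_prop) (by fun_prop))
    refine (REIn.or h3 h1).of_eq fun n => ?_
    rw [mem_cod_frC0]
    constructor
    · rintro (h | h) ⟨h4, h5⟩
      · omega
      · exact h5 h
    · intro h
      by_cases h4 : n.unpair.1 < n.unpair.2
      · right
        by_contra h5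
        exact h ⟨h4, h5⟩
      · left; omega

theorem hom_of {f : Col} {H : Set ℕ} (h : RT22 (toC f) H) :
    ∃ i : Bool, ∀ x ∈ H, ∀ y ∈ H, x < y → f x y = i := by
  obtain ⟨_, i, hi⟩ := h
  refine ⟨decide (i = 1), fun x hx y hy hxy => ?_⟩
  have h1 := hi x y hxy hx hy
  unfold toC at h1
  simp only at h1
  by_cases h2 : f x y = true
  · rw [if_pos h2] at h1
    rw [h2, ← h1]; rfl
  · rw [if_neg h2] at h1
    rw [Bool.not_eq_true] at h2
    rw [h2, ← h1]; rfl

/-- the coloring `f` is stable -/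
def Stable (f : Coloring) : Prop :=
  ∀ x, ∃ c : Fin 2, ∃ n, ∀ y, ∀ h : x < y, n ≤ y → f ⟨(x, y), h⟩ = c

theorem stable_toC {f : Col} (h : ∀ x, ∃ c : Bool, ∃ n, ∀ y, n ≤ y → f x y = c) :
    Stable (toC f) := by
  intro x
  obtain ⟨c, n, hn⟩ := h x
  refine ⟨if c = true then 1 else 0, n, fun y _ hy => ?_⟩
  unfold toC
  simp only [hn y hy]

/-- the explicit form of the negation -/
def NotRed (π : List ℕ) : Prop := ∃ f : Coloring, Stable f ∧ ∀ g : Coloring,
  TuringReducible (chi (code g)) (chi (code f)) → ∃ G, RTp π g G ∧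
    ∀ H, RT22 f H → ¬ TuringReducible (chi H) (chi (join (code f) G))

theorem not_cred {π : List ℕ} (h : NotRed π) : ¬ CRed RT22 (RTp π) := by
  obtain ⟨f, _, hf⟩ := h
  intro hred
  obtain ⟨g, hg, hG⟩ := hred f
  obtain ⟨G, h1, h2⟩ := hf g hg
  obtain ⟨H, h3, h4⟩ := hG G h1
  exact h2 H h3 h4

theorem neg120 (hm : Main) (π : List ℕ) (h : Has120 π) : NotRed π := by
  obtain ⟨f, hst, hf⟩ := hm
  refine ⟨toC f, stable_toC hst, fun g hg => ?_⟩
  rw [code_toC] at hg
  obtain ⟨G, hGi, hGv, hGH⟩ := hf (frC 1 g) (frC_not 1 g) (by rw [cod_frC]; exact hg)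
  obtain ⟨i, j, k, hij, hjk, hk, h1, h2⟩ := h
  refine ⟨G, ⟨hGi, ?_⟩, fun H hH hHr => ?_⟩
  ·
    rintro ⟨x, hx, hp⟩
    obtain ⟨a1, b1⟩ := hp i j hij (by omega)
    obtain ⟨a2, b2⟩ := hp i k (by omega) hk
    obtain ⟨a3, b3⟩ := hp j k hjk hk
    refine hGv (x i) (x j) (x k) a1 a3 (hx _ (by omega)) (hx _ (by omega)) (hx _ hk) ⟨?_, ?_, ?_⟩
    · rw [frC_eq 1 g a1, b1, pat, if_pos h2]; rfl
    · rw [frC_eq 1 g a2, b2, pat, if_neg (by omega)]; rfl
    · rw [frC_eq 1 g a3, b3, pat, if_neg (by omega)]; rfl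
  · rw [code_toC] at hHr
    exact hGH H hH.1 (hom_of hH) hHr

theorem neg102 (hm : Main) (π : List ℕ) (h : Has102 π) : NotRed π := by
  obtain ⟨f, hst, hf⟩ := hm
  refine ⟨toC f, stable_toC hst, fun g hg => ?_⟩
  rw [code_toC] at hg
  obtain ⟨G, hGi, hGv, hGH⟩ := hf (frC 0 g) (frC_not 0 g) (red_frC0 hg)
  obtain ⟨i, j, k, hij, hjk, hk, h1, h2⟩ := h
  refine ⟨G, ⟨hGi, ?_⟩, fun H hH hHr => ?_⟩
  ·
    rintro ⟨x, hx, hp⟩
    obtain ⟨a1, b1⟩ := hp i j hij (by omega)
    obtain ⟨a2, b2⟩ := hp i k (by omega) hk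
    obtain ⟨a3, b3⟩ := hp j k hjk hk
    refine hGv (x i) (x j) (x k) a1 a3 (hx _ (by omega)) (hx _ (by omega)) (hx _ hk) ⟨?_, ?_, ?_⟩
    · rw [frC_eq 0 g a1, b1, pat, if_neg (by omega)]; rfl
    · rw [frC_eq 0 g a2, b2, pat, if_pos (by omega)]; rfl
    · rw [frC_eq 0 g a3, b3, pat, if_pos (by omega)]; rfl
  · rw [code_toC] at hHr
    exact hGH H hH.1 (hom_of hH) hHr

theorem sep120 : Separable [1, 2, 0] := by
  have h1 : Separable ([0] ++ [0].map (· + [0].length)) := .dsum .one .one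
  have h2 := Separable.ssum h1 .one
  simpa using h2

theorem sep102 : Separable [1, 0, 2] := by
  have h1 : Separable ([0].map (· + [0].length) ++ [0]) := .ssum .one .one
  have h2 := Separable.dsum h1 .one
  simpa using h2

end Pool.Agent.H904R6.CR.Neg
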