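import Pool.Agent.H904R6.CR.Real

set_option autoImplicit false

/-!
Task TaskPos: permutations containing neither `120` nor `102` (helper722).
-/

namespace Pool.Agent.H904R6.CR.Pos

open Pool.Agent.Helper446 Pool.Agent.Helper446.Defs Pool.Agent.Helper446.Oracle
open Pool.Agent.H904R6.CR.Real

/-- decidable relative to the oracle -/
def Dec {α : Type*} [Primcodable α] (A : Set ℕ) (S : α → Prop) : Prop :=
  REIn A S ∧ REIn A fun a => ¬ S a

section dec

variable {α β : Type*} [Primcodable α] [Primcodable β] {A : Set ℕ}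

theorem Dec.comp {S : β → Prop} (h : Dec A S) {f : α → β} (hf : Computable f) :
    Dec A fun a => S (f a) := ⟨h.1.comp hf, h.2.comp hf⟩

theorem Dec.not {S : α → Prop} (h : Dec A S) : Dec A fun a => ¬ S a :=
  ⟨h.2, h.1.of_eq fun _ => not_not.symm⟩

theorem Dec.and {S T : α → Prop} (hS : Dec A S) (hT : Dec A T) : Dec A fun a => S a ∧ T a := by
  refine ⟨hS.1.and hT.1, (hS.2.or hT.2).of_eq fun a => ?_⟩
  rw [not_and_or]

theorem Dec.of_eq {S T : α → Prop} (h : Dec A S) (hST : ∀ a, S a ↔ T a) : Dec A T :=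
  ⟨h.1.of_eq hST, h.2.of_eq fun a => not_congr (hST a)⟩

theorem Dec.mem {f : α → ℕ} (hf : Computable f) : Dec A fun a => f a ∈ A :=
  ⟨REIn.mem hf, REIn.not_mem hf⟩

theorem Dec.lt {f g : α → ℕ} (hf : Computable f) (hg : Computable g) :
    Dec A fun a => f a < g a := by
  refine ⟨REIn.of_re (RE.lt hf hg), (REIn.of_re (RE.le hg hf)).of_eq fun a => ?_⟩
  rw [not_lt]

end dec

/-- the colour of the pair `(x, y)` -/
def fv (f : Coloring) (x y : ℕ) : Fin 2 := if h : x < y then f ⟨(x, y), h⟩ else 0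

theorem fv_eq (f : Coloring) {x y : ℕ} (h : x < y) : fv f x y = f ⟨(x, y), h⟩ := by
  unfold fv
  rw [dif_pos h]

theorem mem_code (f : Coloring) {x y : ℕ} (h : x < y) : Nat.pair x y ∈ code f ↔ fv f x y = 1 := by
  rw [fv_eq f h]
  unfold code
  constructor
  · rintro ⟨x', y', h', he, hf⟩
    obtain ⟨rfl, rfl⟩ := Nat.pair_eq_pair.1 he
    exact hf
  · intro hf
    exact ⟨x, y, h, rfl, hf⟩

theorem fin2 (a : Fin 2) : a = 0 ∨ a = 1 := by
  fin_cases a <;> simp

theorem code_join (A B : Set ℕ) : Dec (join A B) fun n : ℕ => n ∈ A := by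
  refine Dec.of_eq (Dec.mem (f := fun n : ℕ => 2 * n) (by fun_prop)) fun n => ?_
  unfold join
  constructor
  · rintro (⟨_, h⟩ | ⟨h, _⟩)
    · have : 2 * n / 2 = n := by omega
      rwa [this] at h
    · omega
  · intro h
    left
    have : 2 * n / 2 = n := by omega
    refine ⟨by omega, ?_⟩
    rwa [this]

theorem set_join (A B : Set ℕ) : Dec (join A B) fun n : ℕ => n ∈ B := by
  refine Dec.of_eq (Dec.mem (f := fun n : ℕ => 2 * n + 1) (by fun_prop)) fun n => ?_
  unfold join
  constructor
  · rintro (⟨h, _⟩ | ⟨_, h⟩)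
    · omega
    · have : (2 * n + 1) / 2 = n := by omega
      rwa [this] at h
  · intro h
    right
    have : (2 * n + 1) / 2 = n := by omega
    refine ⟨by omega, ?_⟩
    rwa [this]

/-- the relation `x < y` and `f(x,y) = s` is decidable in `f` -/
theorem dec_edge {J : Set ℕ} (f : Coloring) (hf : Dec J fun n : ℕ => n ∈ code f) (s : Fin 2) :
    Dec J fun p : ℕ × ℕ => p.1 < p.2 ∧ fv f p.1 p.2 = s := by
  have h1 : Dec J fun p : ℕ × ℕ => Nat.pair p.1 p.2 ∈ code f :=
    hf.comp (f := fun p : ℕ × ℕ => Nat.pair p.1 p.2) (by fun_prop)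
  have h2 : Dec J fun p : ℕ × ℕ => p.1 < p.2 := Dec.lt (by fun_prop) (by fun_prop)
  rcases fin2 s with rfl | rfl
  · refine (h2.and h1.not).of_eq fun p => ?_
    apply and_congr_right
    intro h
    rw [mem_code f h]
    rcases fin2 (fv f p.1 p.2) with h3 | h3 <;> simp [h3]
  · refine (h2.and h1).of_eq fun p => ?_
    apply and_congr_right
    intro h
    rw [mem_code f h]

/-- the other colour -/
def oth (s : Fin 2) : Fin 2 := if s = 0 then 1 else 0

theorem ne_iff (a s : Fin 2) : a ≠ s ↔ a = oth s := by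
  unfold oth
  fin_cases a <;> fin_cases s <;> simp

section greedy

variable (f : Coloring) (G : Set ℕ) (s : Fin 2)

/-- the greedy homogeneous set -/
noncomputable def Hg : ℕ → Prop :=
  WellFounded.fix (C := fun _ => Prop) Nat.lt_wfRel.wf fun n ih =>
    n ∈ G ∧ ∀ (y : ℕ) (h : y < n), ih y h → fv f y n = s

theorem Hg_iff (n : ℕ) : Hg f G s n ↔ (n ∈ G ∧ ∀ y < n, Hg f G s y → fv f y n = s) := by
  unfold Hg
  rw [WellFounded.fix_eq]

/-- good -/
def Gd (L : List Bool) (y : ℕ) : Prop :=
  y ∈ G ∧ ∀ z < y, (L[z]? ≠ some true ∨ (z < y ∧ fv f z y = s))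

/-- bad -/
def Bd (L : List Bool) (y : ℕ) : Prop :=
  y ∉ G ∨ ∃ z, L[z]? = some true ∧ (z < y ∧ fv f z y = oth s)

theorem Gd_iff (L : List Bool) (y : ℕ) (h : ∀ z < y, (L[z]? = some true ↔ Hg f G s z)) :
    Gd f G s L y ↔ Hg f G s y := by
  rw [Hg_iff]
  unfold Gd
  apply and_congr_right
  intro _
  apply forall_congr'
  intro z
  apply forall_congr'
  intro hz
  rw [ne_eq, h z hz]
  constructor
  · rintro (h1 | h1) h2
    · exact absurd h2 h1
    · exact h1.2
  · intro h1
    by_cases h2 : Hg f G s z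
    · exact Or.inr ⟨hz, h1 h2⟩
    · exact Or.inl h2

theorem Bd_iff (L : List Bool) (y : ℕ) (h : ∀ z < y, (L[z]? = some true ↔ Hg f G s z)) :
    Bd f G s L y ↔ ¬ Hg f G s y := by
  rw [← Gd_iff f G s L y h]
  unfold Bd Gd
  rw [not_and_or]
  apply or_congr_right
  push Not
  constructor
  · rintro ⟨z, h1, h2, h3⟩
    refine ⟨z, h2, h1, fun _ => ?_⟩
    rw [ne_iff]
    exact h3
  · rintro ⟨z, h1, h2, h3⟩
    exact ⟨z, h2, h1, (ne_iff _ _).1 (h3 h1)⟩

/-- correctness of the list -/
def Ck (L : List Bool) (y : ℕ) : Prop :=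
  (L[y]? = some true ∧ Gd f G s L y) ∨ (L[y]? = some false ∧ Bd f G s L y)

theorem Ck_sound (L : List Bool) (n : ℕ) (h : ∀ y < n, Ck f G s L y) :
    ∀ y < n, ((L[y]? = some true ↔ Hg f G s y) ∧ (L[y]? = some false ↔ ¬ Hg f G s y)) := by
  intro y
  induction y using Nat.strong_induction_on with
  | _ y ih =>
    intro hy
    have h1 : ∀ z < y, (L[z]? = some true ↔ Hg f G s z) := fun z hz => (ih z hz (hz.trans hy)).1
    rcases h y hy with ⟨h2, h3⟩ | ⟨h2, h3⟩
    · rw [Gd_iff f G s L y h1] at h3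
      rw [h2]
      simp [h3]
    · rw [Bd_iff f G s L y h1] at h3
      rw [h2]
      simp [h3]

theorem Ck_complete (n : ℕ) : ∃ L : List Bool, (∀ y < n, Ck f G s L y) ∧
    ∀ y < n, (L[y]? = some true ↔ Hg f G s y) := by
  classical
  refine ⟨(List.range n).map fun y => decide (Hg f G s y), ?_, ?_⟩
  · intro y hy
    have hL : ∀ z < n, ((List.range n).map fun y => decide (Hg f G s y))[z]? =
        some (decide (Hg f G s z)) := by
      intro z hz
      rw [List.getElem?_map, List.getElem?_range hz]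
      rfl
    have h1 : ∀ z < y, (((List.range n).map fun y => decide (Hg f G s y))[z]? = some true ↔
        Hg f G s z) := by
      intro z hz
      rw [hL z (hz.trans hy)]
      simp
    unfold Ck
    rw [hL y hy, Gd_iff f G s _ y h1, Bd_iff f G s _ y h1]
    by_cases h2 : Hg f G s y <;> simp [h2]
  · intro z hz
    rw [List.getElem?_map, List.getElem?_range hz]
    simp

theorem dec_Hg {J : Set ℕ} (hf : Dec J fun n : ℕ => n ∈ code f) (hG : Dec J fun n : ℕ => n ∈ G) :
    Dec J fun n : ℕ => Hg f G s n := by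
  have hGd : REIn J fun p : List Bool × ℕ => Gd f G s p.1 p.2 := by
    unfold Gd
    refine REIn.and (hG.1.comp (f := fun p : List Bool × ℕ => p.2) (by fun_prop)) ?_
    refine REIn.all_lt (S := fun (p : List Bool × ℕ) (z : ℕ) => p.1[z]? ≠ some true ∨
      (z < p.2 ∧ fv f z p.2 = s)) ?_ (by fun_prop)
    refine REIn.or (REIn.of_re (RE.ne (by fun_prop) (by fun_prop))) ?_
    exact (dec_edge f hf s).1.comp (f := fun x : (List Bool × ℕ) × ℕ => (x.2, x.1.2))
      (by fun_prop)
  have hBd : REIn J fun p : List Bool × ℕ => Bd f G s p.1 p.2 := by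
    unfold Bd
    refine REIn.or (hG.2.comp (f := fun p : List Bool × ℕ => p.2) (by fun_prop)) ?_
    refine REIn.ex (S := fun (p : List Bool × ℕ) (z : ℕ) => p.1[z]? = some true ∧
      (z < p.2 ∧ fv f z p.2 = oth s)) ?_
    refine REIn.and (REIn.of_re (RE.eq (by fun_prop) (by fun_prop))) ?_
    exact (dec_edge f hf (oth s)).1.comp (f := fun x : (List Bool × ℕ) × ℕ => (x.2, x.1.2))
      (by fun_prop)
  have hCk : REIn J fun p : List Bool × ℕ => Ck f G s p.1 p.2 := by
    unfold Ck
    refine REIn.or (REIn.and (REIn.of_re (RE.eq (by fun_prop) (by fun_prop))) hGd)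
      (REIn.and (REIn.of_re (RE.eq (by fun_prop) (by fun_prop))) hBd)
  have hAll : REIn J fun p : ℕ × List Bool => ∀ y < p.1 + 1, Ck f G s p.2 y := by
    refine REIn.all_lt (S := fun (p : ℕ × List Bool) (y : ℕ) => Ck f G s p.2 y) ?_ (by fun_prop)
    exact hCk.comp (f := fun x : (ℕ × List Bool) × ℕ => (x.1.2, x.2)) (by fun_prop)
  constructor
  · have h1 : REIn J fun n : ℕ => ∃ L : List Bool, (∀ y < n + 1, Ck f G s L y) ∧
        L[n]? = some true := by
      refine REIn.ex (S := fun (n : ℕ) (L : List Bool) => (∀ y < n + 1, Ck f G s L y) ∧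
        L[n]? = some true) ?_
      exact REIn.and hAll (REIn.of_re (RE.eq (by fun_prop) (by fun_prop)))
    refine h1.of_eq fun n => ?_
    constructor
    · rintro ⟨L, h2, h3⟩
      exact (Ck_sound f G s L (n + 1) h2 n (Nat.lt_succ_self n)).1.1 h3
    · intro h2
      obtain ⟨L, h3, h4⟩ := Ck_complete f G s (n + 1)
      exact ⟨L, h3, (h4 n (Nat.lt_succ_self n)).2 h2⟩
  · have h1 : REIn J fun n : ℕ => ∃ L : List Bool, (∀ y < n + 1, Ck f G s L y) ∧
        L[n]? = some false := by
      refine REIn.ex (S := fun (n : ℕ) (L : List Bool) => (∀ y < n + 1, Ck f G s L y) ∧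
        L[n]? = some false) ?_
      exact REIn.and hAll (REIn.of_re (RE.eq (by fun_prop) (by fun_prop)))
    refine h1.of_eq fun n => ?_
    constructor
    · rintro ⟨L, h2, h3⟩
      exact (Ck_sound f G s L (n + 1) h2 n (Nat.lt_succ_self n)).2.1 h3
    · intro h2
      obtain ⟨L, h3, h4⟩ := Ck_complete f G s (n + 1)
      exact ⟨L, h3, (Ck_sound f G s L (n + 1) h3 n (Nat.lt_succ_self n)).2.2 h2⟩

end greedy

/-- the induction -/
theorem main {J : Set ℕ} (f : Coloring) (hf : Dec J fun n : ℕ => n ∈ code f) (π : List ℕ) :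
    (∀ i, ∃ s : Fin 2, ∀ j, i < j → j < π.length → pat π i j = s) →
    ∀ G : Set ℕ, G.Infinite → Dec J (fun n : ℕ => n ∈ G) →
    (¬ ∃ x : ℕ → ℕ, (∀ i, i < π.length → x i ∈ G) ∧
      ∀ i j, i < j → j < π.length → ∃ h : x i < x j, f ⟨(x i, x j), h⟩ = pat π i j) →
    ∃ H : Set ℕ, RT22 f H ∧ Dec J fun n : ℕ => n ∈ H := by
  induction π with
  | nil =>
    intro _ G _ _ hno
    exfalso
    apply hno
    exact ⟨fun _ => 0, fun i hi => absurd hi (Nat.not_lt_zero i),
      fun i j _ hj => absurd hj (Nat.not_lt_zero j)⟩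
  | cons a π ih =>
    intro hs G hG hGd hno
    obtain ⟨s, hs0⟩ := hs 0
    by_cases hcase : ∃ x ∈ G, {y | y ∈ G ∧ (x < y ∧ fv f x y = s)}.Infinite
    · obtain ⟨x, hx, hinf⟩ := hcase
      apply ih _ {y | y ∈ G ∧ (x < y ∧ fv f x y = s)} hinf
      · exact hGd.and ((dec_edge f hf s).comp (f := fun y : ℕ => (x, y)) (by fun_prop))
      · rintro ⟨x', hx1, hx2⟩
        apply hno
        refine ⟨fun i => if i = 0 then x else x' (i - 1), ?_, ?_⟩
        · intro i hi
          by_cases h0 : i = 0
          · simp only [h0, if_true]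
            exact hx
          · simp only [h0, if_false]
            rw [List.length_cons] at hi
            exact (hx1 (i - 1) (by omega)).1
        · intro i j hij hj
          have hj0 : j ≠ 0 := by omega
          rw [List.length_cons] at hj
          by_cases h0 : i = 0
          · subst h0
            have h1 := (hx1 (j - 1) (by omega)).2
            simp only [if_true, hj0, if_false]
            refine ⟨h1.1, ?_⟩
            rw [← fv_eq f h1.1, h1.2]
            exact (hs0 j hij (by rw [List.length_cons]; omega)).symm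
          · simp only [h0, hj0, if_false]
            obtain ⟨h1, h2⟩ := hx2 (i - 1) (j - 1) (by omega) (by omega)
            refine ⟨h1, ?_⟩
            rw [h2]
            unfold pat
            obtain ⟨i', rfl⟩ : ∃ i', i = i' + 1 := ⟨i - 1, by omega⟩
            obtain ⟨j', rfl⟩ : ∃ j', j = j' + 1 := ⟨j - 1, by omega⟩
            simp
      · intro i
        obtain ⟨s', hs'⟩ := hs (i + 1)
        refine ⟨s', fun j hij hj => ?_⟩
        rw [← hs' (j + 1) (by omega) (by rw [List.length_cons]; omega)]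
        unfold pat
        simp
    · push Not at hcase
      have hfin : ∀ x ∈ G, {y | y ∈ G ∧ (x < y ∧ fv f x y = s)}.Finite := by
        intro x hx
        exact hcase x hx
      refine ⟨{n | Hg f G (oth s) n}, ⟨?_, oth s, ?_⟩, dec_Hg f G (oth s) hf hGd⟩
      · intro hHfin
        have h1 : (⋃ h ∈ {n | Hg f G (oth s) n}, {y | y ∈ G ∧ (h < y ∧ fv f h y = s)}).Finite := by
          apply hHfin.biUnion
          intro h hh
          exact hfin h ((Hg_iff f G (oth s) h).1 hh).1
        obtain ⟨b, hb⟩ := hHfin.bddAbove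
        have h2 : ((⋃ h ∈ {n | Hg f G (oth s) n}, {y | y ∈ G ∧ (h < y ∧ fv f h y = s)}) ∪
            Set.Iic b).Finite := h1.union (Set.finite_Iic b)
        obtain ⟨n, hn1, hn2⟩ := (hG.sdiff h2).nonempty
        have h3 : Hg f G (oth s) n := by
          rw [Hg_iff]
          refine ⟨hn1, fun y hy hyH => ?_⟩
          rw [← ne_iff]
          intro h4
          apply hn2
          left
          rw [Set.mem_iUnion₂]
          exact ⟨y, hyH, hn1, hy, h4⟩
        apply hn2
        right
        exact hb h3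
      · intro x y h hx hy
        rw [← fv_eq f h]
        exact ((Hg_iff f G (oth s) y).1 hy).2 x h hx

theorem t : TaskPos := by
  intro π hnd h120 h102 f
  refine ⟨f, TuringReducible.refl _, ?_⟩
  rintro G ⟨hG, hno⟩
  have hs : ∀ i, ∃ s : Fin 2, ∀ j, i < j → j < π.length → pat π i j = s := by
    intro i
    refine ⟨pat π i (i + 1), fun j hij hj => ?_⟩
    by_contra hne
    have hj1 : i + 1 < j := by
      rcases Nat.lt_or_ge (i + 1) j with h | h
      · exact h
      · exfalso
        apply hne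
        have : j = i + 1 := by omega
        rw [this]
    have hinj : π.getD i 0 ≠ π.getD j 0 := by
      rw [List.getD_eq_getElem _ _ (by omega), List.getD_eq_getElem _ _ hj]
      intro he
      have := (List.Nodup.getElem_inj_iff hnd).1 he
      omega
    have hinj2 : π.getD i 0 ≠ π.getD (i + 1) 0 := by
      rw [List.getD_eq_getElem _ _ (by omega), List.getD_eq_getElem _ _ (by omega)]
      intro he
      have := (List.Nodup.getElem_inj_iff hnd).1 he
      omega
    unfold pat at hne
    by_cases h1 : π.getD i 0 < π.getD (i + 1) 0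
    · rw [if_pos h1] at hne
      have h2 : ¬ π.getD i 0 < π.getD j 0 := fun h => hne (if_pos h)
      exact h120 ⟨i, i + 1, j, by omega, hj1, hj, by omega, h1⟩
    · rw [if_neg h1] at hne
      have h2 : π.getD i 0 < π.getD j 0 := by
        by_contra h
        exact hne (if_neg h)
      exact h102 ⟨i, i + 1, j, by omega, hj1, hj, by omega, h2⟩
  obtain ⟨H, hH1, hH2⟩ := main f (code_join (code f) G) π hs G hG (set_join (code f) G) hno
  exact ⟨H, hH1, turingReducible_iff.2 ⟨hH2.1, hH2.2⟩⟩

end Pool.Agent.H904R6.CR.Pos
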